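import Mathlib

set_option autoImplicit false

namespace Pool.Agent.TH998.Tor

open MvPolynomial

variable {d : ℕ}

/-- `F` is an integer valued function given by a complex polynomial of degree at most `D`. -/
def IP (D : ℕ) (F : (Fin d → ℤ) → ℤ) : Prop :=
  ∃ P : MvPolynomial (Fin d) ℂ, P.totalDegree ≤ D ∧
    ∀ x : Fin d → ℤ, MvPolynomial.eval (fun i => ((x i : ℤ) : ℂ)) P = ((F x : ℤ) : ℂ)

lemma IP.mono {D D' : ℕ} {F : (Fin d → ℤ) → ℤ} (h : IP D F) (hD : D ≤ D') : IP D' F := by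
  obtain ⟨P, h1, h2⟩ := h
  exact ⟨P, h1.trans hD, h2⟩

lemma IP.const (D : ℕ) (c : ℤ) : IP D (fun _ : Fin d → ℤ => c) :=
  ⟨C (c : ℂ), (totalDegree_C _).le.trans (Nat.zero_le _), by intro x; simp⟩

lemma IP.coord (i : Fin d) : IP 1 (fun x => x i) :=
  ⟨X i, by simp, by intro x; simp⟩

lemma IP.add {D : ℕ} {F G : (Fin d → ℤ) → ℤ} (hF : IP D F) (hG : IP D G) :
    IP D (fun x => F x + G x) := by
  obtain ⟨P, h1, h2⟩ := hF
  obtain ⟨Q, h3, h4⟩ := hG
  refine ⟨P + Q, (totalDegree_add _ _).trans (max_le h1 h3), ?_⟩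
  intro x
  simp [h2, h4]

lemma IP.sub {D : ℕ} {F G : (Fin d → ℤ) → ℤ} (hF : IP D F) (hG : IP D G) :
    IP D (fun x => F x - G x) := by
  obtain ⟨P, h1, h2⟩ := hF
  obtain ⟨Q, h3, h4⟩ := hG
  refine ⟨P - Q, (totalDegree_sub _ _).trans (max_le h1 h3), ?_⟩
  intro x
  simp [h2, h4]

lemma IP.mul {D E : ℕ} {F G : (Fin d → ℤ) → ℤ} (hF : IP D F) (hG : IP E G) :
    IP (D + E) (fun x => F x * G x) := by
  obtain ⟨P, h1, h2⟩ := hF
  obtain ⟨Q, h3, h4⟩ := hG
  refine ⟨P * Q, (totalDegree_mul _ _).trans (add_le_add h1 h3), ?_⟩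
  intro x
  simp [h2, h4]

lemma IP.pow {D : ℕ} {F : (Fin d → ℤ) → ℤ} (hF : IP D F) (k : ℕ) :
    IP (k * D) (fun x => F x ^ k) := by
  obtain ⟨P, h1, h2⟩ := hF
  refine ⟨P ^ k, (totalDegree_pow _ _).trans (Nat.mul_le_mul_left _ h1), ?_⟩
  intro x
  simp [h2]

lemma IP.sum {ι : Type*} {D : ℕ} (T : Finset ι) {F : ι → (Fin d → ℤ) → ℤ}
    (hF : ∀ i ∈ T, IP D (F i)) : IP D (fun x => ∑ i ∈ T, F i x) := by
  classical
  revert hF
  refine Finset.induction_on T ?_ ?_
  · intro _
    simpa using IP.const D 0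
  · intro a T ha ih hF
    have h1 := (hF a (Finset.mem_insert_self _ _)).add
      (ih (fun i hi => hF i (Finset.mem_insert_of_mem hi)))
    have h2 : (fun x => ∑ i ∈ insert a T, F i x) = fun x => F a x + ∑ i ∈ T, F i x := by
      funext x
      rw [Finset.sum_insert ha]
    rw [h2]
    exact h1

lemma IP.prod {ι : Type*} (T : Finset ι) {D : ι → ℕ} {F : ι → (Fin d → ℤ) → ℤ}
    (hF : ∀ i ∈ T, IP (D i) (F i)) : IP (∑ i ∈ T, D i) (fun x => ∏ i ∈ T, F i x) := by
  classical
  revert hF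
  refine Finset.induction_on T ?_ ?_
  · intro _
    simpa using IP.const 0 1
  · intro a T ha ih hF
    have h1 := (hF a (Finset.mem_insert_self _ _)).mul
      (ih (fun i hi => hF i (Finset.mem_insert_of_mem hi)))
    have h2 : (fun x => ∏ i ∈ insert a T, F i x) = fun x => F a x * ∏ i ∈ T, F i x := by
      funext x
      rw [Finset.prod_insert ha]
    rw [h2, Finset.sum_insert ha]
    exact h1

lemma IP.divv {D : ℕ} {F G : (Fin d → ℤ) → ℤ} (hF : IP D F) (p : ℕ) (hp : p ≠ 0)
    (h : ∀ x, (p : ℤ) * G x = F x) : IP D G := by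
  obtain ⟨P, h1, h2⟩ := hF
  refine ⟨C ((p : ℂ)⁻¹) * P, ?_, ?_⟩
  · refine (totalDegree_mul _ _).trans ?_
    simpa using h1
  · intro x
    have h3 : ((F x : ℤ) : ℂ) = (p : ℂ) * ((G x : ℤ) : ℂ) := by
      rw [← h x]; push_cast; ring
    have hp' : (p : ℂ) ≠ 0 := by exact_mod_cast hp
    rw [map_mul, eval_C, h2, h3]
    field_simp

/-- Every measure on `V` that annihilates all integer valued polynomials of degree at most `D`
vanishes. -/
def Inj (V : Finset (Fin d → ℤ)) (D : ℕ) : Prop :=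
  ∀ a : (Fin d → ℤ) → ℂ, (∀ F, IP D F → ∑ x ∈ V, a x * ((F x : ℤ) : ℂ) = 0) → ∀ x ∈ V, a x = 0

lemma Inj.mono {V : Finset (Fin d → ℤ)} {D D' : ℕ} (h : Inj V D) (hD : D ≤ D') : Inj V D' :=
  fun a ha => h a fun F hF => ha F (hF.mono hD)

/-- Good interpolating functions modulo `p` give injectivity. -/
lemma kill {D : ℕ} (p : ℕ) [Fact p.Prime] (S : Finset (Fin d → ℤ))
    (hF : ∀ s ∈ S, ∃ F, IP D F ∧ (∀ t ∈ S, t ≠ s → ((F t : ℤ) : ZMod p) = 0) ∧
      ((F s : ℤ) : ZMod p) ≠ 0) : Inj S D := by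
  classical
  intro a hkill
  choose! F h1 h2 h3 using hF
  let M : Matrix S S ℤ := Matrix.of (fun s t => F s.1 t.1)
  have hdet : M.det ≠ 0 := by
    intro h0
    have h4 : ((M.map (Int.castRingHom (ZMod p))).det) = 0 := by
      have := (Int.castRingHom (ZMod p)).map_det M
      rw [h0, map_zero] at this
      exact this.symm
    have h5 : M.map (Int.castRingHom (ZMod p)) =
        Matrix.diagonal (fun s : S => ((F s.1 s.1 : ℤ) : ZMod p)) := by
      ext s t
      by_cases hst : s = t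
      · subst hst
        rw [Matrix.diagonal_apply_eq, Matrix.map_apply]
        rfl
      · rw [Matrix.diagonal_apply_ne _ hst]
        have : (t : Fin d → ℤ) ≠ s := fun h => hst (Subtype.ext h.symm)
        rw [Matrix.map_apply]
        exact h2 s.1 s.2 t.1 t.2 this
    rw [h5, Matrix.det_diagonal, Finset.prod_eq_zero_iff] at h4
    obtain ⟨s, _, hs⟩ := h4
    exact h3 s.1 s.2 hs
  have hdet' : (M.map (Int.castRingHom ℂ)).det ≠ 0 := by
    have := (Int.castRingHom ℂ).map_det M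
    intro h0
    have h6 : ((Int.castRingHom ℂ) M.det) = 0 := by rw [this]; exact h0
    have h7 : ((M.det : ℤ) : ℂ) = 0 := h6
    exact hdet (by exact_mod_cast h7)
  have hz : (fun t : S => a t.1) = 0 := by
    apply Matrix.eq_zero_of_mulVec_eq_zero hdet'
    funext s
    have := hkill (F s.1) (h1 s.1 s.2)
    rw [← Finset.sum_coe_sort] at this
    have e : ∀ t : S, (M.map (Int.castRingHom ℂ)) s t * a t.1 = a t.1 * ((F s.1 t.1 : ℤ) : ℂ) := by
      intro t
      rw [mul_comm, Matrix.map_apply]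
      rfl
    simp only [Matrix.mulVec, dotProduct, Pi.zero_apply]
    rw [← this]
    exact Finset.sum_congr rfl fun t _ => e t
  intro x hx
  exact congrFun hz ⟨x, hx⟩

lemma exists_g (p : ℕ) [hp : Fact p.Prime] (s : Fin d → ℤ) :
    ∃ g : Fin d → (Fin d → ℤ) → ℤ,
      (∀ i, IP p (g i)) ∧ (∀ i, g i s = 0) ∧
      (∀ i (y : Fin d → ℤ), ((g i (fun j => s j + p * y j) : ℤ) : ZMod p) = ((y i : ℤ) : ZMod p)) := by
  have hp0 : (p : ℤ) ≠ 0 := by exact_mod_cast hp.1.ne_zero
  have hdvd : ∀ z : ℤ, (p : ℤ) ∣ z - z ^ p := by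
    intro z
    rw [← ZMod.intCast_zmod_eq_zero_iff_dvd]
    push_cast
    rw [ZMod.pow_card, sub_self]
  refine ⟨fun i x => ((x i - s i) - (x i - s i) ^ p) / p, ?_, ?_, ?_⟩
  · intro i
    have h1 : IP 1 (fun x : Fin d → ℤ => x i - s i) :=
      (IP.coord i).sub (IP.const 1 (s i))
    have h2 := h1.pow p
    rw [mul_one] at h2
    have h3 := (h1.mono hp.1.one_lt.le).sub h2
    refine h3.divv p hp.1.ne_zero ?_
    intro x
    exact Int.mul_ediv_cancel' (hdvd _)
  · intro i
    simp [hp.1.ne_zero]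
  · intro i y
    have h1 : ((s i + p * y i - s i) - (s i + p * y i - s i) ^ p) / (p : ℤ)
        = y i - (p : ℤ) ^ (p - 1) * y i ^ p := by
      apply Int.ediv_eq_of_eq_mul_right hp0
      have h2 : (p : ℤ) ^ p = p * (p : ℤ) ^ (p - 1) := by
        rw [← pow_succ', Nat.sub_add_cancel hp.1.one_lt.le]
      rw [add_sub_cancel_left, mul_pow, h2]
      ring
    show (((((s i + p * y i - s i) - (s i + p * y i - s i) ^ p) / (p : ℤ)) : ℤ) : ZMod p) = _
    rw [h1]
    have h3 : p - 1 ≠ 0 := by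
      have := hp.1.one_lt
      omega
    push_cast
    rw [ZMod.natCast_self, zero_pow h3]
    ring

/-- The evaluation of a polynomial with integer coefficients `q` and all exponents at most `e`. -/
def ev {e : ℕ} (q : (Fin d → Fin (e + 1)) → ℤ) (y : Fin d → ℤ) : ℤ :=
  ∑ α, q α * ∏ i, y i ^ (α i : ℕ)

/-- The digit argument: separating polynomials modulo `p` for the classes modulo `p` give
injectivity. -/
lemma comp_inj (p : ℕ) [hp : Fact p.Prime] (V : Finset (Fin d → ℤ)) (e : ℕ)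
    (h : ∀ s ∈ V, ∃ q : (Fin d → Fin (e + 1)) → ℤ,
      (∀ y : Fin d → ℤ, y ≠ 0 → (fun i => s i + p * y i) ∈ V → ev q y = 0) ∧
      ¬ (p : ℤ) ∣ ev q 0) :
    Inj V (d * (p - 1) + p * (d * e)) := by
  classical
  apply kill p
  intro s hs
  obtain ⟨q, hq1, hq2⟩ := h s hs
  obtain ⟨g, hg1, hg2, hg3⟩ := exists_g p s
  refine ⟨fun x => (∏ i ∈ (Finset.univ : Finset (Fin d)), (1 - (x i - s i) ^ (p - 1))) *
      ev q (fun i => g i x), ?_, ?_, ?_⟩
  · refine IP.mul ?_ ?_
    · have h1 := IP.prod (Finset.univ : Finset (Fin d)) (D := fun _ => p - 1)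
        (F := fun i x => 1 - (x i - s i) ^ (p - 1)) (by
          intro i _
          have h1 : IP 1 (fun x : Fin d → ℤ => x i - s i) :=
            (IP.coord i).sub (IP.const 1 (s i))
          have h2 := h1.pow (p - 1)
          rw [mul_one] at h2
          exact (IP.const _ 1).sub h2)
      simpa using h1
    · unfold ev
      refine IP.sum _ fun α _ => ?_
      have h2 : IP (∑ i : Fin d, (α i : ℕ) * p) (fun x => ∏ i, g i x ^ (α i : ℕ)) :=
        IP.prod (Finset.univ : Finset (Fin d)) (D := fun i => (α i : ℕ) * p)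
          (F := fun i x => g i x ^ (α i : ℕ)) (fun i _ => (hg1 i).pow _)
      have h3 := (IP.const 0 (q α)).mul h2
      refine h3.mono ?_
      rw [zero_add]
      calc ∑ i : Fin d, (α i : ℕ) * p ≤ ∑ _i : Fin d, e * p :=
            Finset.sum_le_sum fun i _ => Nat.mul_le_mul_right _ (by have := (α i).2; omega)
        _ = p * (d * e) := by simp; ring
  · intro x hx hxs
    show (((_ * _ : ℤ)) : ZMod p) = 0
    by_cases hcong : ∀ i, (p : ℤ) ∣ x i - s i
    · choose y hy using hcong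
      have hxy : x = fun i => s i + p * y i := by
        funext i
        have := hy i
        linarith
      have hy0 : y ≠ 0 := by
        intro h0
        apply hxs
        rw [hxy, h0]
        funext i
        simp
      have hgy : ∀ i, ((g i x : ℤ) : ZMod p) = ((y i : ℤ) : ZMod p) := by
        intro i
        rw [hxy]
        exact hg3 i y
      have hz := hq1 y hy0 (hxy ▸ hx)
      have h4 : ((ev q (fun i => g i x) : ℤ) : ZMod p) = ((ev q y : ℤ) : ZMod p) := by
        unfold ev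
        push_cast
        refine Finset.sum_congr rfl fun α _ => ?_
        congr 1
        refine Finset.prod_congr rfl fun i _ => ?_
        rw [hgy i]
      rw [Int.cast_mul, h4, hz]
      simp
    · push Not at hcong
      obtain ⟨i, hi⟩ := hcong
      have hz : (((∏ i ∈ (Finset.univ : Finset (Fin d)), (1 - (x i - s i) ^ (p - 1))) : ℤ) :
          ZMod p) = 0 := by
        push_cast
        refine Finset.prod_eq_zero (Finset.mem_univ i) ?_
        have h1 : (((x i : ℤ) : ZMod p) - ((s i : ℤ) : ZMod p)) ≠ 0 := by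
          rw [← Int.cast_sub]
          rwa [Ne, ZMod.intCast_zmod_eq_zero_iff_dvd]
        rw [ZMod.pow_card_sub_one_eq_one h1, sub_self]
      rw [Int.cast_mul, hz, zero_mul]
  · have hp1 : p - 1 ≠ 0 := by
      have := hp.1.one_lt
      omega
    have hA : (∏ i ∈ (Finset.univ : Finset (Fin d)), (1 - (s i - s i) ^ (p - 1))) = (1 : ℤ) := by
      apply Finset.prod_eq_one
      intro i _
      rw [sub_self, zero_pow hp1, sub_zero]
    show (((_ * _ : ℤ)) : ZMod p) ≠ 0
    rw [hA, one_mul]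
    have h5 : (fun i => g i s) = 0 := by
      funext i
      exact hg2 i
    rw [h5, Ne, ZMod.intCast_zmod_eq_zero_iff_dvd]
    exact hq2

/-- The trivial bound. -/
lemma trivial_inj (V : Finset (Fin d → ℤ)) (ρ : ℕ) (hρ : 1 ≤ ρ)
    (hV : ∀ v ∈ V, ∀ i, |v i| ≤ (ρ : ℤ)) : Inj V (4 * d * ρ) := by
  obtain ⟨p, hp, h1, h2⟩ := Nat.exists_prime_lt_and_le_two_mul (2 * ρ) (by omega)
  have : Fact p.Prime := ⟨hp⟩
  refine (comp_inj p V 0 ?_).mono ?_
  · intro s hs
    refine ⟨fun _ => 1, ?_, ?_⟩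
    · intro y hy hys
      exfalso
      obtain ⟨i, hi⟩ := Function.ne_iff.mp hy
      have a1 := hV s hs i
      have a2 := hV _ hys i
      rw [abs_le] at a1 a2
      have a3 : 1 ≤ |y i| := Int.one_le_abs hi
      have hp' : (2 * ρ : ℤ) < p := by exact_mod_cast h1
      rcases abs_cases (y i) with ⟨e1, e2⟩ | ⟨e1, e2⟩
      · have : (p : ℤ) ≤ p * y i := by nlinarith
        linarith
      · have : (p : ℤ) * y i ≤ - p := by nlinarith
        linarith
    · have : ev (fun _ : Fin d → Fin (0 + 1) => (1 : ℤ)) 0 = 1 := by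
        simp [ev]
      rw [this]
      intro hd
      have := Int.le_of_dvd one_pos hd
      have := hp.one_lt
      omega
  · have : p - 1 ≤ 4 * ρ := by omega
    calc d * (p - 1) + p * (d * 0) = d * (p - 1) := by ring
      _ ≤ d * (4 * ρ) := Nat.mul_le_mul_left _ this
      _ = 4 * d * ρ := by ring

end Pool.Agent.TH998.Tor
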