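import Mathlib
import Pool.Agent.TH998.Tor.Basic

set_option autoImplicit false

namespace Pool.Agent.TH998.Tor

open Complex

variable {d : ℕ}

/-- The trigonometric sum with frequencies in `S` and coefficients `a`. -/
noncomputable def U (S : Finset (Fin d → ℤ)) (a : (Fin d → ℤ) → ℂ) : (Fin d → ℝ) → ℂ :=
  fun x => ∑ ξ ∈ S, a ξ * Complex.exp (2 * (Real.pi : ℂ) * Complex.I *
    ∑ i, ((ξ i : ℝ) : ℂ) * ((x i : ℝ) : ℂ))

/-- The linear form `2πi ξ·x`. -/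
noncomputable def ell (ξ : Fin d → ℤ) : (Fin d → ℝ) →L[ℝ] ℂ :=
  ∑ i, (2 * (Real.pi : ℂ) * Complex.I * ((ξ i : ℝ) : ℂ)) •
    (Complex.ofRealCLM.comp (ContinuousLinearMap.proj (R := ℝ) (φ := fun _ : Fin d => ℝ) i))

lemma ell_apply (ξ : Fin d → ℤ) (x : Fin d → ℝ) :
    ell ξ x = 2 * (Real.pi : ℂ) * Complex.I * ∑ i, ((ξ i : ℝ) : ℂ) * ((x i : ℝ) : ℂ) := by
  simp only [ell, _root_.sum_apply, _root_.smul_apply,
    ContinuousLinearMap.comp_apply, ContinuousLinearMap.proj_apply, Complex.ofRealCLM_apply,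
    smul_eq_mul, Finset.mul_sum]
  refine Finset.sum_congr rfl fun i _ => ?_
  ring

lemma U_eq (S : Finset (Fin d → ℤ)) (a : (Fin d → ℤ) → ℂ) :
    U S a = fun x => ∑ ξ ∈ S, a ξ * Complex.exp (ell ξ x) := by
  funext x
  simp only [U, ell_apply]

lemma U_contDiff (S : Finset (Fin d → ℤ)) (a : (Fin d → ℤ) → ℂ) :
    ContDiff ℝ (⊤ : ℕ∞) (U S a) := by
  rw [U_eq]
  refine ContDiff.sum fun ξ _ => ?_
  exact contDiff_const.mul (Complex.contDiff_exp.comp (ell ξ).contDiff)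

lemma U_fderiv (S : Finset (Fin d → ℤ)) (a : (Fin d → ℤ) → ℂ) (i : Fin d) (x : Fin d → ℝ) :
    fderiv ℝ (U S a) x (Pi.single i 1) =
      U S (fun ξ => a ξ * (2 * (Real.pi : ℂ) * Complex.I * ((ξ i : ℤ) : ℂ))) x := by
  have h1 : HasFDerivAt (U S a) (∑ ξ ∈ S, a ξ • (Complex.exp (ell ξ x) • ell ξ)) x := by
    rw [U_eq]
    refine HasFDerivAt.fun_sum fun ξ _ => ?_
    have h2 : HasFDerivAt (fun y => Complex.exp (ell ξ y)) (Complex.exp (ell ξ x) • ell ξ) x :=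
      (ell ξ).hasFDerivAt.cexp
    exact h2.const_mul (a ξ)
  rw [h1.fderiv, U_eq]
  simp only [_root_.sum_apply, _root_.smul_apply, smul_eq_mul]
  refine Finset.sum_congr rfl fun ξ _ => ?_
  have h3 : ell ξ (Pi.single i 1) = 2 * (Real.pi : ℂ) * Complex.I * ((ξ i : ℤ) : ℂ) := by
    rw [ell_apply]
    congr 1
    rw [Finset.sum_eq_single i]
    · simp
    · intro j _ hj
      simp [Pi.single_eq_of_ne hj]
    · simp
  rw [h3]
  ring

/-- Vanishing to order `k` at `p`. -/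
def Van (k : ℕ) (f : (Fin d → ℝ) → ℂ) (p : Fin d → ℝ) : Prop :=
  ∀ j : ℕ, j < k → iteratedFDeriv ℝ j f p = 0

lemma Van.deriv {k : ℕ} {S : Finset (Fin d → ℤ)} {a : (Fin d → ℤ) → ℂ} {p : Fin d → ℝ}
    (h : Van (k + 1) (U S a) p) (i : Fin d) :
    Van k (U S (fun ξ => a ξ * (2 * (Real.pi : ℂ) * Complex.I * ((ξ i : ℤ) : ℂ)))) p := by
  intro j hj
  have h1 : (U S (fun ξ => a ξ * (2 * (Real.pi : ℂ) * Complex.I * ((ξ i : ℤ) : ℂ)))) =
      (ContinuousLinearMap.apply ℝ ℂ (Pi.single i (1 : ℝ) : Fin d → ℝ)) ∘ fderiv ℝ (U S a) := by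
    funext x
    rw [Function.comp_apply, ContinuousLinearMap.apply_apply, U_fderiv]
  have h2 : ContDiff ℝ (j : ℕ∞) (fderiv ℝ (U S a)) :=
    ((U_contDiff S a).fderiv_right (m := (j : ℕ∞)) (by exact_mod_cast le_top))
  rw [h1, ContinuousLinearMap.iteratedFDeriv_comp_left _ (h2.contDiffAt) (le_refl _)]
  have h3 : iteratedFDeriv ℝ j (fderiv ℝ (U S a)) p = 0 := by
    rw [← norm_eq_zero, norm_iteratedFDeriv_fderiv, h (j + 1) (by omega), norm_zero]
  rw [h3]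
  ext m
  simp

lemma mono_kill {S : Finset (Fin d → ℤ)} {p : Fin d → ℝ} (N : ℕ) :
    ∀ (a : (Fin d → ℤ) → ℂ) (k : ℕ), Van k (U S a) p → ∀ m : Fin d → ℕ, ∑ i, m i = N → N < k →
      ∑ ξ ∈ S, (a ξ * Complex.exp (ell ξ p)) * ∏ i, ((ξ i : ℤ) : ℂ) ^ m i = 0 := by
  have hc : (2 * (Real.pi : ℂ) * Complex.I) ≠ 0 := by
    simp [Real.pi_ne_zero]
  induction N with
  | zero =>
    intro a k hk m hm hNk
    have hm0 : ∀ i, m i = 0 := by
      intro i
      exact (Finset.sum_eq_zero_iff.mp hm) i (Finset.mem_univ i)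
    have h0 := hk 0 hNk
    have h1 : U S a p = 0 := by
      have : ‖iteratedFDeriv ℝ 0 (U S a) p‖ = 0 := by rw [h0, norm_zero]
      rw [norm_iteratedFDeriv_zero] at this
      exact norm_eq_zero.mp this
    rw [U_eq] at h1
    simpa [hm0] using h1
  | succ N ih =>
    intro a k hk m hm hNk
    obtain ⟨k', rfl⟩ : ∃ k', k = k' + 1 := ⟨k - 1, by omega⟩
    obtain ⟨q, hq⟩ : ∃ q, m q ≠ 0 := by
      by_contra hcon
      push Not at hcon
      rw [Finset.sum_eq_zero (fun i _ => hcon i)] at hm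
      omega
    set m' : Fin d → ℕ := Function.update m q (m q - 1) with hm'
    have hprod : ∀ ξ : Fin d → ℤ, ∏ i, ((ξ i : ℤ) : ℂ) ^ m i =
        ((ξ q : ℤ) : ℂ) * ∏ i, ((ξ i : ℤ) : ℂ) ^ m' i := by
      intro ξ
      rw [← Finset.mul_prod_erase _ _ (Finset.mem_univ q),
        ← Finset.mul_prod_erase (Finset.univ) (fun i => ((ξ i : ℤ) : ℂ) ^ m' i)
          (Finset.mem_univ q)]
      have h1 : ∏ i ∈ Finset.univ.erase q, ((ξ i : ℤ) : ℂ) ^ m' i =
          ∏ i ∈ Finset.univ.erase q, ((ξ i : ℤ) : ℂ) ^ m i := by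
        refine Finset.prod_congr rfl fun i hi => ?_
        rw [hm', Function.update_of_ne (Finset.ne_of_mem_erase hi)]
      rw [h1, hm', Function.update_self, ← mul_assoc, ← pow_succ']
      congr 3
      omega
    have hsum : ∑ i, m' i = N := by
      have h1 : ∑ i, m i = m q + ∑ i ∈ Finset.univ.erase q, m i :=
        (Finset.add_sum_erase _ _ (Finset.mem_univ q)).symm
      have h2 : ∑ i, m' i = m' q + ∑ i ∈ Finset.univ.erase q, m' i :=
        (Finset.add_sum_erase _ _ (Finset.mem_univ q)).symm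
      have h3 : ∑ i ∈ Finset.univ.erase q, m' i = ∑ i ∈ Finset.univ.erase q, m i := by
        refine Finset.sum_congr rfl fun i hi => ?_
        rw [hm', Function.update_of_ne (Finset.ne_of_mem_erase hi)]
      have h4 : m' q = m q - 1 := by rw [hm', Function.update_self]
      omega
    have h1 := ih _ k' (hk.deriv q) m' hsum (by omega)
    have h2 : ∑ ξ ∈ S, (a ξ * (2 * (Real.pi : ℂ) * Complex.I * ((ξ q : ℤ) : ℂ)) *
        Complex.exp (ell ξ p)) * ∏ i, ((ξ i : ℤ) : ℂ) ^ m' i =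
        (2 * (Real.pi : ℂ) * Complex.I) *
        ∑ ξ ∈ S, (a ξ * Complex.exp (ell ξ p)) * ∏ i, ((ξ i : ℤ) : ℂ) ^ m i := by
      rw [Finset.mul_sum]
      refine Finset.sum_congr rfl fun ξ _ => ?_
      rw [hprod]
      ring
    rw [h2] at h1
    exact (mul_eq_zero.mp h1).resolve_left hc

lemma poly_kill {S : Finset (Fin d → ℤ)} {p : Fin d → ℝ} {a : (Fin d → ℤ) → ℂ} {k : ℕ}
    (hk : Van k (U S a) p) (F : (Fin d → ℤ) → ℤ) (D : ℕ) (hD : D < k) (hF : IP D F) :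
    ∑ ξ ∈ S, (a ξ * Complex.exp (ell ξ p)) * ((F ξ : ℤ) : ℂ) = 0 := by
  obtain ⟨P, h1, h2⟩ := hF
  have h3 : ∀ ξ : Fin d → ℤ, ((F ξ : ℤ) : ℂ) = ∑ m ∈ P.support, P.coeff m *
      ∏ i, ((ξ i : ℤ) : ℂ) ^ m i := by
    intro ξ
    rw [← h2 ξ, MvPolynomial.eval_eq']
  simp only [h3, Finset.mul_sum]
  rw [Finset.sum_comm]
  refine Finset.sum_eq_zero fun m hm => ?_
  have h4 : ∑ i, m i < k := by
    have := MvPolynomial.le_totalDegree hm
    rw [Finsupp.sum_fintype _ _ (by simp)] at this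
    omega
  have h5 := mono_kill (S := S) (p := p) _ a k hk (fun i => m i) rfl h4
  have h6 : ∑ ξ ∈ S, (a ξ * Complex.exp (ell ξ p)) * (P.coeff m *
      ∏ i, ((ξ i : ℤ) : ℂ) ^ m i) =
      P.coeff m * ∑ ξ ∈ S, (a ξ * Complex.exp (ell ξ p)) * ∏ i, ((ξ i : ℤ) : ℂ) ^ m i := by
    rw [Finset.mul_sum]
    refine Finset.sum_congr rfl fun ξ _ => ?_
    ring
  rw [h6, h5, mul_zero]

/-- The vanishing order is bounded by every interpolation degree. -/
lemma order_le {S : Finset (Fin d → ℤ)} {p : Fin d → ℝ} {a : (Fin d → ℤ) → ℂ} {k e : ℕ}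
    (hU : U S a ≠ 0) (hk : Van k (U S a) p) (he : Inj S e) : k ≤ e := by
  by_contra hcon
  push Not at hcon
  apply hU
  have h1 := he (fun ξ => a ξ * Complex.exp (ell ξ p))
    (fun F hF => poly_kill hk F e hcon hF)
  have h2 : ∀ ξ ∈ S, a ξ = 0 := by
    intro ξ hξ
    exact (mul_eq_zero.mp (h1 ξ hξ)).resolve_right (Complex.exp_ne_zero _)
  funext x
  unfold U
  rw [Pi.zero_apply]
  exact Finset.sum_eq_zero fun ξ hξ => by rw [h2 ξ hξ, zero_mul]

end Pool.Agent.TH998.Tor
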