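import Mathlib
import Pool.Agent.TH998.Tor.Basic

set_option autoImplicit false

namespace Pool.Agent.TH998.Tor

open MvPolynomial

variable {d : ℕ}

/-- The bound for the Gram determinant. -/
def gramBound (d w e ρ : ℕ) : ℕ := w.factorial * ((e + 1) ^ d * ρ ^ (2 * (d * e))) ^ w

lemma gram_sep (W : Finset (Fin d → ℤ)) (e ρ : ℕ) (hρ : 1 ≤ ρ)
    (hW : ∀ v ∈ W, ∀ i, |v i| ≤ (ρ : ℤ)) (hinj : Inj W e) :
    ∃ Δ : ℕ, Δ ≠ 0 ∧ Δ ≤ gramBound d W.card e ρ ∧
      ∀ s ∈ W, ∃ q : (Fin d → Fin (e + 1)) → ℤ, (∀ t ∈ W, t ≠ s → ev q t = 0) ∧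
        (ev q s).natAbs = Δ := by
  classical
  let M : Matrix W (Fin d → Fin (e + 1)) ℤ := Matrix.of fun s α => ∏ i, (s.1 i) ^ (α i : ℕ)
  have hM : ∀ s α, M s α = ∏ i, (s.1 i) ^ (α i : ℕ) := fun s α => rfl
  let G : Matrix W W ℤ := M * M.transpose
  have hG : ∀ s t, G s t = ∑ α, M s α * M t α := fun s t => rfl
  have hdet : G.det ≠ 0 := by
    intro h0
    obtain ⟨v, hv0, hv⟩ := Matrix.exists_mulVec_eq_zero_iff.mpr h0
    have h1 : ∑ α, (∑ s, v s * M s α) ^ 2 = 0 := by
      have h2 : ∑ s, v s * (G.mulVec v) s = 0 := by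
        rw [hv]; simp
      rw [← h2]
      simp only [Matrix.mulVec, dotProduct, hG]
      have e1 : ∀ s, v s * ∑ t, (∑ α, M s α * M t α) * v t =
          ∑ α, ∑ t, (v s * M s α) * (v t * M t α) := by
        intro s
        rw [Finset.mul_sum, Finset.sum_comm]
        refine Finset.sum_congr rfl fun t _ => ?_
        rw [Finset.sum_mul, Finset.mul_sum]
        refine Finset.sum_congr rfl fun α _ => ?_
        ring
      simp only [e1]
      rw [Finset.sum_comm]
      refine Finset.sum_congr rfl fun α _ => ?_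
      rw [pow_two, Finset.sum_mul_sum]
    rw [Finset.sum_eq_zero_iff_of_nonneg (fun i _ => sq_nonneg _)] at h1
    have h3 : ∀ α, ∑ s, v s * M s α = 0 := by
      intro α
      have := h1 α (Finset.mem_univ _)
      exact pow_eq_zero_iff (two_ne_zero) |>.mp this
    apply hv0
    let a : (Fin d → ℤ) → ℂ := fun x => if h : x ∈ W then ((v ⟨x, h⟩ : ℤ) : ℂ) else 0
    have ha : ∀ s : W, a s.1 = ((v s : ℤ) : ℂ) := by
      intro s
      simp [a, s.2]
    have hz := hinj a (by
      intro F hF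
      obtain ⟨P, hP1, hP2⟩ := hF
      have h4 : ∀ x : Fin d → ℤ, ((F x : ℤ) : ℂ) = ∑ m ∈ P.support, P.coeff m *
          ∏ i, ((x i : ℤ) : ℂ) ^ (m i) := by
        intro x
        rw [← hP2 x, MvPolynomial.eval_eq']
      simp only [h4, Finset.mul_sum]
      rw [Finset.sum_comm]
      refine Finset.sum_eq_zero fun m hm => ?_
      have h5 : ∀ i, m i ≤ e := by
        intro i
        have h6 := MvPolynomial.le_totalDegree hm
        rw [Finsupp.sum_fintype _ _ (by simp)] at h6
        have h7 : m i ≤ ∑ j, m j := Finset.single_le_sum (f := fun j => m j)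
          (fun j _ => Nat.zero_le _) (Finset.mem_univ i)
        exact (h7.trans h6).trans hP1
      have h8 := h3 (fun i => ⟨m i, by have := h5 i; omega⟩)
      rw [← Finset.sum_coe_sort]
      have h9 : ∑ s : W, a s.1 * (P.coeff m * ∏ i, ((s.1 i : ℤ) : ℂ) ^ (m i)) =
          P.coeff m * ((∑ s : W, v s * M s (fun i => ⟨m i, by have := h5 i; omega⟩) : ℤ) : ℂ) := by
        push_cast
        rw [Finset.mul_sum]
        refine Finset.sum_congr rfl fun s _ => ?_
        rw [ha, hM]
        push_cast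
        ring
      rw [h9, h8]
      simp)
    funext s
    have h10 := hz s.1 s.2
    rw [ha] at h10
    exact_mod_cast h10
  refine ⟨G.det.natAbs, ?_, ?_, ?_⟩
  · exact Int.natAbs_ne_zero.mpr hdet
  · have hMb : ∀ s α, |M s α| ≤ ((ρ ^ (d * e) : ℕ) : ℤ) := by
      intro s α
      rw [hM, Finset.abs_prod]
      have h1 : ∀ i ∈ (Finset.univ : Finset (Fin d)), |s.1 i ^ (α i : ℕ)| ≤ (ρ : ℤ) ^ e := by
        intro i _
        rw [abs_pow]
        refine (pow_le_pow_left₀ (abs_nonneg _) (hW _ s.2 i) _).trans ?_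
        exact pow_le_pow_right₀ (by exact_mod_cast hρ) (by have := (α i).2; omega)
      refine (Finset.prod_le_prod (fun i _ => abs_nonneg _) h1).trans ?_
      simp [← pow_mul, mul_comm]
    have hGb : ∀ s t, |G s t| ≤ (((e + 1) ^ d * ρ ^ (2 * (d * e)) : ℕ) : ℤ) := by
      intro s t
      rw [hG]
      refine (Finset.abs_sum_le_sum_abs _ _).trans ?_
      have h1 : ∀ α ∈ (Finset.univ : Finset (Fin d → Fin (e + 1))),
          |M s α * M t α| ≤ ((ρ ^ (2 * (d * e)) : ℕ) : ℤ) := by
        intro α _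
        rw [abs_mul]
        refine (mul_le_mul (hMb s α) (hMb t α) (abs_nonneg _) (by positivity)).trans ?_
        rw [← Nat.cast_mul, ← pow_add, two_mul]
      refine (Finset.sum_le_sum h1).trans ?_
      simp
    have h2 := Matrix.det_le (abv := AbsoluteValue.abs) (A := G) hGb
    have h3 : |G.det| ≤ ((gramBound d W.card e ρ : ℕ) : ℤ) := by
      refine h2.trans ?_
      rw [gramBound, Fintype.card_coe]
      push_cast
      rw [nsmul_eq_mul]
    have h4 : ((G.det.natAbs : ℕ) : ℤ) ≤ ((gramBound d W.card e ρ : ℕ) : ℤ) := by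
      rw [Int.natCast_natAbs]
      exact h3
    exact_mod_cast h4
  · intro s hs
    refine ⟨fun α => ∑ t : W, G.adjugate t ⟨s, hs⟩ * M t α, ?_, ?_⟩
    · intro t ht hts
      have h1 : ev (fun α => ∑ t : W, G.adjugate t ⟨s, hs⟩ * M t α) t =
          (G * G.adjugate) ⟨t, ht⟩ ⟨s, hs⟩ := by
        simp only [ev, Matrix.mul_apply, hG, Finset.sum_mul]
        rw [Finset.sum_comm]
        refine Finset.sum_congr rfl fun u _ => ?_
        refine Finset.sum_congr rfl fun α _ => ?_
        rw [hM ⟨t, ht⟩ α]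
        ring
      rw [h1, Matrix.mul_adjugate]
      simp only [Matrix.smul_apply, smul_eq_mul]
      rw [Matrix.one_apply_ne, mul_zero]
      intro h
      exact hts (congrArg Subtype.val h)
    · have h1 : ev (fun α => ∑ t : W, G.adjugate t ⟨s, hs⟩ * M t α) s =
          (G * G.adjugate) ⟨s, hs⟩ ⟨s, hs⟩ := by
        simp only [ev, Matrix.mul_apply, hG, Finset.sum_mul]
        rw [Finset.sum_comm]
        refine Finset.sum_congr rfl fun u _ => ?_
        refine Finset.sum_congr rfl fun α _ => ?_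
        rw [hM ⟨s, hs⟩ α]
        ring
      rw [h1, Matrix.mul_adjugate]
      simp

end Pool.Agent.TH998.Tor
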