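import Mathlib

set_option autoImplicit false

namespace Pool.Agent.TH998.Tor

open Module

variable {d : ℕ}

/-- The rational vector of an integer vector. -/
def cst (v : Fin d → ℤ) : Fin d → ℚ := fun i => (v i : ℚ)

/-- The rational span of a set of integer vectors. -/
def sp (T : Set (Fin d → ℤ)) : Submodule ℚ (Fin d → ℚ) := Submodule.span ℚ (cst '' T)

lemma cst_mem_sp {T : Set (Fin d → ℤ)} {v : Fin d → ℤ} (hv : v ∈ T) : cst v ∈ sp T :=
  Submodule.subset_span ⟨v, hv, rfl⟩

lemma basis_family (T : Set (Fin d → ℤ)) (k : ℕ) (hk : finrank ℚ (sp T) = k) :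
    ∃ w : Fin k → (Fin d → ℤ), (∀ i, w i ∈ T) ∧ LinearIndependent ℚ (fun i => cst (w i)) ∧
      Submodule.span ℚ (Set.range fun i => cst (w i)) = sp T := by
  unfold sp at hk ⊢
  subst hk
  obtain ⟨f, h1, h2, h3⟩ := Submodule.exists_fun_fin_finrank_span_eq ℚ (cst '' T)
  choose w hw1 hw2 using h1
  have hf : (fun i => cst (w i)) = f := funext hw2
  refine ⟨w, hw1, ?_, ?_⟩
  · rw [hf]; exact h3
  · rw [hf]; exact h2

lemma span_family (T : Set (Fin d → ℤ)) (r : ℕ) (hr : finrank ℚ (sp T) ≤ r) :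
    ∃ u : Fin r → (Fin d → ℤ), (∀ i, u i ∈ T ∨ u i = 0) ∧
      ∀ y ∈ T, ∃ x : Fin r → ℚ, ∀ l, (y l : ℚ) = ∑ i, x i * (u i l : ℚ) := by
  obtain ⟨k, hk⟩ : ∃ k, k = finrank ℚ (sp T) := ⟨_, rfl⟩
  obtain ⟨w, hw1, hw2, hw3⟩ := basis_family T k hk.symm
  rw [← hk] at hr
  refine ⟨fun i => if h : (i : ℕ) < k then w ⟨i, h⟩ else 0, ?_, ?_⟩
  · intro i
    by_cases h : (i : ℕ) < k
    · left; simp only [h, dif_pos]; exact hw1 _
    · right; simp only [h, dif_neg, not_false_eq_true]
  · intro y hy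
    have h1 := cst_mem_sp hy
    rw [← hw3, Submodule.mem_span_range_iff_exists_fun] at h1
    obtain ⟨c, hc⟩ := h1
    refine ⟨fun i => if h : (i : ℕ) < k then c ⟨i, h⟩ else 0, ?_⟩
    intro l
    have h2 := congrFun hc l
    simp only [Finset.sum_apply, Pi.smul_apply, smul_eq_mul] at h2
    have h3 : (y l : ℚ) = ∑ i, c i * (w i l : ℚ) := by
      rw [show (y l : ℚ) = cst y l from rfl, ← h2]
      rfl
    rw [h3]
    have h4 : ∀ i : Fin r, (if h : (i : ℕ) < k then c ⟨i, h⟩ else 0) *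
        (((if h : (i : ℕ) < k then w ⟨i, h⟩ else 0) l : ℤ) : ℚ) =
        if h : (i : ℕ) < k then c ⟨i, h⟩ * (w ⟨i, h⟩ l : ℚ) else 0 := by
      intro i
      by_cases h : (i : ℕ) < k
      · simp only [h, dif_pos]
      · simp only [h, dif_neg, not_false_eq_true, zero_mul]
    rw [Finset.sum_congr rfl (fun i _ => h4 i)]
    symm
    have h5 : ∑ i : Fin r, (if h : (i : ℕ) < k then c ⟨i, h⟩ * (w ⟨i, h⟩ l : ℚ) else 0) =
        ∑ i ∈ Finset.range r, (if h : i < k then c ⟨i, h⟩ * (w ⟨i, h⟩ l : ℚ) else 0) :=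
      Fin.sum_univ_eq_sum_range (fun i => if h : i < k then c ⟨i, h⟩ * (w ⟨i, h⟩ l : ℚ) else 0) r
    have h6 : ∑ i : Fin k, c i * (w i l : ℚ) =
        ∑ i ∈ Finset.range k, (if h : i < k then c ⟨i, h⟩ * (w ⟨i, h⟩ l : ℚ) else 0) := by
      rw [← Fin.sum_univ_eq_sum_range
        (fun i => if h : i < k then c ⟨i, h⟩ * (w ⟨i, h⟩ l : ℚ) else 0) k]
      refine Finset.sum_congr rfl fun i _ => ?_
      simp [i.2]
    rw [h5, h6]
    symm
    apply Finset.sum_subset
    · intro i hi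
      rw [Finset.mem_range] at hi ⊢
      omega
    · intro i _ hi
      rw [Finset.mem_range] at hi
      simp [hi]

/-- The Gram matrix. -/
def gram {k : ℕ} (w : Fin k → (Fin d → ℤ)) : Matrix (Fin k) (Fin k) ℤ :=
  Matrix.of fun i j => ∑ l, w i l * w j l

lemma gram_det_ne_zero {k : ℕ} (w : Fin k → (Fin d → ℤ))
    (hw : LinearIndependent ℚ (fun i => cst (w i))) : (gram w).det ≠ 0 := by
  intro h0
  obtain ⟨v, hv0, hv⟩ := Matrix.exists_mulVec_eq_zero_iff.mpr h0
  have h1 : ∑ l, (∑ i, v i * w i l) ^ 2 = 0 := by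
    have h2 : ∑ i, v i * ((gram w).mulVec v) i = 0 := by
      rw [hv]; simp
    rw [← h2]
    simp only [Matrix.mulVec, dotProduct, gram, Matrix.of_apply]
    have e1 : ∀ i, v i * ∑ j, (∑ l, w i l * w j l) * v j =
        ∑ l, ∑ j, (v i * w i l) * (v j * w j l) := by
      intro i
      rw [Finset.mul_sum, Finset.sum_comm]
      refine Finset.sum_congr rfl fun j _ => ?_
      rw [Finset.sum_mul, Finset.mul_sum]
      refine Finset.sum_congr rfl fun l _ => ?_
      ring
    simp only [e1]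
    rw [Finset.sum_comm]
    refine Finset.sum_congr rfl fun l _ => ?_
    rw [pow_two, Finset.sum_mul_sum]
  rw [Finset.sum_eq_zero_iff_of_nonneg (fun i _ => sq_nonneg _)] at h1
  have h3 : ∑ i, (v i : ℚ) • cst (w i) = 0 := by
    funext l
    have h4 := h1 l (Finset.mem_univ _)
    have h5 : ∑ i, v i * w i l = 0 := pow_eq_zero_iff (two_ne_zero) |>.mp h4
    simp only [Finset.sum_apply, Pi.smul_apply, smul_eq_mul, Pi.zero_apply, cst]
    exact_mod_cast h5
  have h6 := Fintype.linearIndependent_iff.mp hw _ h3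
  apply hv0
  funext i
  exact_mod_cast h6 i

lemma gram_entry_bound {k : ℕ} (w : Fin k → (Fin d → ℤ)) (R : ℕ)
    (hR : ∀ i l, |w i l| ≤ (R : ℤ)) (i j : Fin k) : |gram w i j| ≤ ((d * R ^ 2 : ℕ) : ℤ) := by
  simp only [gram, Matrix.of_apply]
  refine (Finset.abs_sum_le_sum_abs _ _).trans ?_
  have h1 : ∀ l ∈ (Finset.univ : Finset (Fin d)), |w i l * w j l| ≤ (R : ℤ) ^ 2 := by
    intro l _
    rw [abs_mul, pow_two]
    exact mul_le_mul (hR i l) (hR j l) (abs_nonneg _) (by positivity)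
  refine (Finset.sum_le_sum h1).trans ?_
  simp

lemma gram_det_bound {k : ℕ} (w : Fin k → (Fin d → ℤ)) (R : ℕ)
    (hR : ∀ i l, |w i l| ≤ (R : ℤ)) :
    |(gram w).det| ≤ ((k.factorial * (d * R ^ 2) ^ k : ℕ) : ℤ) := by
  have h2 := Matrix.det_le (abv := AbsoluteValue.abs) (A := gram w)
    (x := ((d * R ^ 2 : ℕ) : ℤ)) (gram_entry_bound w R hR)
  refine le_trans h2 ?_
  rw [Fintype.card_fin, nsmul_eq_mul]
  push_cast
  exact le_refl _

lemma cramer {k : ℕ} (w : Fin k → (Fin d → ℤ)) (U : Fin d → ℤ)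
    (hU : cst U ∈ Submodule.span ℚ (Set.range fun i => cst (w i))) (l : Fin d) :
    (gram w).det * U l =
      ∑ j, ((gram w).adjugate.mulVec (fun i => ∑ m, U m * w i m)) j * w j l := by
  rw [Submodule.mem_span_range_iff_exists_fun] at hU
  obtain ⟨x, hx⟩ := hU
  have hxl : ∀ m, (U m : ℚ) = ∑ j, x j * (w j m : ℚ) := by
    intro m
    have h2 := congrFun hx m
    simp only [Finset.sum_apply, Pi.smul_apply, smul_eq_mul] at h2
    rw [show (U m : ℚ) = cst U m from rfl, ← h2]
    rfl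
  set Gq : Matrix (Fin k) (Fin k) ℚ := (gram w).map (Int.castRingHom ℚ) with hGq
  have hz : Gq.mulVec x = fun i => ((∑ m, U m * w i m : ℤ) : ℚ) := by
    funext i
    simp only [Matrix.mulVec, dotProduct, hGq, Matrix.map_apply, gram, Matrix.of_apply]
    push_cast
    simp only [hxl, Finset.sum_mul]
    rw [Finset.sum_comm]
    refine Finset.sum_congr rfl fun j _ => ?_
    simp only [eq_intCast]
    push_cast
    rw [Finset.sum_mul]
    refine Finset.sum_congr rfl fun m _ => ?_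
    ring
  have hadj : Gq.adjugate.mulVec (fun i => ((∑ m, U m * w i m : ℤ) : ℚ)) = Gq.det • x := by
    rw [← hz, Matrix.mulVec_mulVec, Matrix.adjugate_mul, Matrix.smul_mulVec, Matrix.one_mulVec]
  obtain ⟨δ, hδ⟩ : ∃ δ : ℤ, δ = (gram w).det := ⟨_, rfl⟩
  have hdet : Gq.det = (δ : ℚ) := by
    rw [hδ]
    exact ((Int.castRingHom ℚ).map_det (gram w)).symm
  rw [← hδ]
  have hadjm : Gq.adjugate = ((gram w).adjugate).map (Int.castRingHom ℚ) := by
    rw [hGq]
    exact (RingHom.map_adjugate (Int.castRingHom ℚ) (gram w)).symm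
  have key : ((δ * U l : ℤ) : ℚ) =
      ((∑ j, ((gram w).adjugate.mulVec (fun i => ∑ m, U m * w i m)) j * w j l : ℤ) : ℚ) := by
    push_cast
    rw [hxl l, Finset.mul_sum]
    refine Finset.sum_congr rfl fun j _ => ?_
    have h1 := congrFun hadj j
    rw [Pi.smul_apply, smul_eq_mul, hdet] at h1
    have h2 : (((gram w).adjugate.mulVec (fun i => ∑ m, U m * w i m)) j : ℚ) =
        Gq.adjugate.mulVec (fun i => ((∑ m, U m * w i m : ℤ) : ℚ)) j := by
      rw [hadjm]
      simp only [Matrix.mulVec, dotProduct, Matrix.map_apply]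
      push_cast
      rfl
    rw [h2, h1]
    ring
  exact_mod_cast key

/-- The drop of the rank in classes modulo a prime. -/
lemma rank_drop (V : Set (Fin d → ℤ)) (k : ℕ) (hk : finrank ℚ (sp V) = k)
    (D : ℤ) (A : Fin d → ℤ) (c : ℤ) (hD : ∀ v ∈ V, D * ∑ i, v i ^ 2 = ∑ i, A i * v i + c)
    (hA : cst A ∈ sp V) (p : ℕ) (hp : p.Prime)
    (hm : ¬ (p : ℤ) ∣ ∑ i, A i ^ 2 + 4 * D * c) (ρ : ℕ) (s : Fin d → ℤ) (hs : s ∈ V)
    (hρ : ∀ y : Fin d → ℤ, (fun i => s i + p * y i) ∈ V → ∀ i, |y i| ≤ (ρ : ℤ))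
    (hpb : k.factorial * (d * ρ ^ 2) ^ k < p) :
    finrank ℚ (sp {y : Fin d → ℤ | (fun i => s i + p * y i) ∈ V}) < k := by
  by_contra hcon
  push Not at hcon
  set T : Set (Fin d → ℤ) := {y : Fin d → ℤ | (fun i => s i + p * y i) ∈ V} with hT
  have hp0 : (p : ℚ) ≠ 0 := by exact_mod_cast hp.ne_zero
  have hpZ : (p : ℤ) ≠ 0 := by exact_mod_cast hp.ne_zero
  have hle : sp T ≤ sp V := by
    unfold sp
    rw [Submodule.span_le]
    rintro _ ⟨y, hy, rfl⟩
    have h1 : cst y = (p : ℚ)⁻¹ • (cst (fun i => s i + p * y i) - cst s) := by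
      funext i
      simp only [cst, Pi.smul_apply, Pi.sub_apply, smul_eq_mul]
      push_cast
      field_simp
      ring
    rw [h1]
    exact Submodule.smul_mem _ _ (Submodule.sub_mem _ (cst_mem_sp hy) (cst_mem_sp hs))
  have heq : sp T = sp V := Submodule.eq_of_le_of_finrank_le hle (by rw [hk]; exact hcon)
  obtain ⟨y, hy1, hy2, hy3⟩ := basis_family T k (by rw [heq]; exact hk)
  set U : Fin d → ℤ := fun i => 2 * D * s i - A i with hU
  have hUmem : cst U ∈ Submodule.span ℚ (Set.range fun i => cst (y i)) := by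
    rw [hy3, heq]
    have h1 : cst U = (2 * (D : ℚ)) • cst s - cst A := by
      funext i
      simp only [cst, hU, Pi.smul_apply, Pi.sub_apply, smul_eq_mul]
      push_cast
      ring
    rw [h1]
    exact Submodule.sub_mem _ (Submodule.smul_mem _ _ (cst_mem_sp hs)) hA
  have hUy : ∀ j, ∑ m, U m * y j m = (p : ℤ) * (-(D * ∑ m, y j m ^ 2)) := by
    intro j
    have h1 := hD _ (hy1 j)
    have h2 := hD s hs
    have e1 : ∑ i, (s i + p * y j i) ^ 2 =
        ∑ i, s i ^ 2 + p * (2 * ∑ i, s i * y j i + p * ∑ i, y j i ^ 2) := by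
      simp only [Finset.mul_sum, ← Finset.sum_add_distrib]
      exact Finset.sum_congr rfl fun i _ => by ring
    have e2 : ∑ i, A i * (s i + p * y j i) = ∑ i, A i * s i + p * ∑ i, A i * y j i := by
      simp only [Finset.mul_sum, ← Finset.sum_add_distrib]
      exact Finset.sum_congr rfl fun i _ => by ring
    rw [e1, e2] at h1
    have h3 : (p : ℤ) * (D * (2 * ∑ i, s i * y j i + p * ∑ i, y j i ^ 2)) =
        p * ∑ i, A i * y j i := by linarith
    have h4 := mul_left_cancel₀ hpZ h3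
    have e3 : ∑ m, U m * y j m = 2 * D * ∑ i, s i * y j i - ∑ i, A i * y j i := by
      simp only [hU, Finset.mul_sum, ← Finset.sum_sub_distrib]
      exact Finset.sum_congr rfl fun i _ => by ring
    rw [e3, ← h4]
    ring
  have hU2 : ∑ i, U i ^ 2 = ∑ i, A i ^ 2 + 4 * D * c := by
    have h2 := hD s hs
    have e1 : ∑ i, U i ^ 2 = 4 * D * (D * ∑ i, s i ^ 2 - ∑ i, A i * s i) + ∑ i, A i ^ 2 := by
      simp only [hU, Finset.mul_sum, ← Finset.sum_sub_distrib, ← Finset.sum_add_distrib]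
      exact Finset.sum_congr rfl fun i _ => by ring
    rw [e1, h2]
    ring
  have hdet0 := gram_det_ne_zero y hy2
  have hdetb := gram_det_bound y ρ (fun i l => hρ _ (hy1 i) l)
  have hpd : ¬ (p : ℤ) ∣ (gram y).det := by
    intro hd
    have h1 := Int.le_of_dvd (abs_pos.mpr hdet0) ((dvd_abs _ _).mpr hd)
    have h2 : ((k.factorial * (d * ρ ^ 2) ^ k : ℕ) : ℤ) < (p : ℤ) := by exact_mod_cast hpb
    linarith
  have hpU : ∀ l, (p : ℤ) ∣ U l := by
    intro l
    have h1 := cramer y U hUmem l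
    have h2 : (gram y).adjugate.mulVec (fun i => ∑ m, U m * y i m) =
        (p : ℤ) • (gram y).adjugate.mulVec (fun i => -(D * ∑ m, y i m ^ 2)) := by
      rw [← Matrix.mulVec_smul]
      congr 1
      funext i
      rw [hUy i]
      rfl
    rw [h2] at h1
    have h3 : (p : ℤ) ∣ (gram y).det * U l := by
      rw [h1]
      refine Finset.dvd_sum fun j _ => ?_
      rw [Pi.smul_apply, smul_eq_mul, mul_assoc]
      exact dvd_mul_right _ _
    exact ((Nat.prime_iff_prime_int.mp hp).dvd_or_dvd h3).resolve_left hpd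
  apply hm
  rw [← hU2]
  refine Finset.dvd_sum fun i _ => ?_
  exact dvd_pow (hpU i) two_ne_zero

/-- The bound for the center. -/
def centerBound (d k R : ℕ) : ℕ :=
  d * (k * (k * (k.factorial * (d * R ^ 2) ^ k) * (d * R ^ 2)) * R) ^ 2

/-- The integral equation of a sphere through the origin. -/
lemma center (V : Set (Fin d → ℤ)) (k : ℕ) (hk : finrank ℚ (sp V) = k) (hk1 : 1 ≤ k)
    (R : ℕ) (hR1 : 1 ≤ R) (hR : ∀ v ∈ V, ∀ i, |v i| ≤ (R : ℤ))
    (a : Fin d → ℚ) (ha : ∀ v ∈ V, ∑ i, (v i : ℚ) ^ 2 = ∑ i, a i * (v i : ℚ)) :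
    ∃ (D : ℤ) (A : Fin d → ℤ), D ≠ 0 ∧ (∀ v ∈ V, D * ∑ i, v i ^ 2 = ∑ i, A i * v i) ∧
      cst A ∈ sp V ∧ ∑ i, A i ^ 2 ≠ 0 ∧ ∑ i, A i ^ 2 ≤ ((centerBound d k R : ℕ) : ℤ) := by
  obtain ⟨w, hw1, hw2, hw3⟩ := basis_family V k hk
  set b : Fin k → ℤ := fun j => ∑ i, w j i ^ 2 with hb
  set z : Fin k → ℤ := (gram w).adjugate.mulVec b with hz
  set A : Fin d → ℤ := fun l => ∑ j, z j * w j l with hA
  have hGz : (gram w).mulVec z = fun i => (gram w).det * b i := by
    rw [hz, Matrix.mulVec_mulVec, Matrix.mul_adjugate, Matrix.smul_mulVec, Matrix.one_mulVec]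
    rfl
  have hAw : ∀ i, ∑ l, A l * w i l = (gram w).det * b i := by
    intro i
    rw [← congrFun hGz i]
    simp only [hA, Matrix.mulVec, dotProduct, gram, Matrix.of_apply, Finset.sum_mul]
    rw [Finset.sum_comm]
    refine Finset.sum_congr rfl fun j _ => ?_
    refine Finset.sum_congr rfl fun l _ => ?_
    ring
  have hdet0 := gram_det_ne_zero w hw2
  have hd1 : 1 ≤ d := by
    have h1 : finrank ℚ (sp V) ≤ d := (Submodule.finrank_le (sp V)).trans (by simp)
    omega
  obtain ⟨δ, hδ⟩ : ∃ δ : ℤ, δ = (gram w).det := ⟨_, rfl⟩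
  rw [← hδ] at hAw hdet0
  refine ⟨δ, A, hdet0, ?_, ?_, ?_, ?_⟩
  · intro v hv
    have h1 := cst_mem_sp hv
    rw [← hw3, Submodule.mem_span_range_iff_exists_fun] at h1
    obtain ⟨x, hx⟩ := h1
    have hxl : ∀ m, (v m : ℚ) = ∑ j, x j * (w j m : ℚ) := by
      intro m
      have h2 := congrFun hx m
      simp only [Finset.sum_apply, Pi.smul_apply, smul_eq_mul] at h2
      rw [show (v m : ℚ) = cst v m from rfl, ← h2]
      rfl
    have h3 : ∑ i, (v i : ℚ) ^ 2 = ∑ j, x j * (b j : ℚ) := by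
      rw [ha v hv]
      have h4 : ∀ j, (b j : ℚ) = ∑ i, a i * (w j i : ℚ) := by
        intro j
        rw [← ha _ (hw1 j), hb]
        push_cast
        rfl
      simp only [h4, hxl, Finset.mul_sum]
      rw [Finset.sum_comm]
      refine Finset.sum_congr rfl fun j _ => ?_
      refine Finset.sum_congr rfl fun l _ => ?_
      ring
    have h5 : ∑ i, (A i : ℚ) * (v i : ℚ) = (δ : ℚ) * ∑ j, x j * (b j : ℚ) := by
      simp only [hxl, Finset.mul_sum]
      rw [Finset.sum_comm]
      refine Finset.sum_congr rfl fun j _ => ?_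
      have h6 : (∑ l, (A l : ℚ) * (w j l : ℚ)) = (δ : ℚ) * (b j : ℚ) := by
        exact_mod_cast hAw j
      calc ∑ i, (A i : ℚ) * (x j * (w j i : ℚ)) = x j * ∑ l, (A l : ℚ) * (w j l : ℚ) := by
            rw [Finset.mul_sum]
            exact Finset.sum_congr rfl fun l _ => by ring
        _ = _ := by rw [h6]; ring
    have h7 : ((δ * ∑ i, v i ^ 2 : ℤ) : ℚ) = ((∑ i, A i * v i : ℤ) : ℚ) := by
      push_cast
      rw [h5, h3]
    exact_mod_cast h7
  · rw [← hw3, Submodule.mem_span_range_iff_exists_fun]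
    refine ⟨fun j => (z j : ℚ), ?_⟩
    funext l
    simp only [Finset.sum_apply, Pi.smul_apply, smul_eq_mul, cst, hA]
    push_cast
    rfl
  · intro h0
    rw [Finset.sum_eq_zero_iff_of_nonneg (fun i _ => sq_nonneg _)] at h0
    have hA0 : ∀ i, A i = 0 := fun i => pow_eq_zero_iff (two_ne_zero) |>.mp (h0 i (Finset.mem_univ _))
    have h1 := hAw ⟨0, hk1⟩
    simp only [hA0, zero_mul, Finset.sum_const_zero] at h1
    have h2 : b ⟨0, hk1⟩ = 0 := (mul_eq_zero.mp h1.symm).resolve_left hdet0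
    simp only [hb] at h2
    rw [Finset.sum_eq_zero_iff_of_nonneg (fun i _ => sq_nonneg _)] at h2
    have h3 : cst (w ⟨0, hk1⟩) = 0 := by
      funext l
      have := pow_eq_zero_iff (two_ne_zero) |>.mp (h2 l (Finset.mem_univ _))
      simp [cst, this]
    exact hw2.ne_zero _ h3
  · have hwR : ∀ i l, |w i l| ≤ (R : ℤ) := fun i l => hR _ (hw1 i) l
    have hdR : (1 : ℤ) ≤ ((d * R ^ 2 : ℕ) : ℤ) := by
      have : 1 ≤ d * R ^ 2 := Nat.mul_pos hd1 (by positivity)
      exact_mod_cast this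
    have hadj : ∀ i j, |(gram w).adjugate i j| ≤ ((k.factorial * (d * R ^ 2) ^ k : ℕ) : ℤ) := by
      intro i j
      rw [Matrix.adjugate_apply]
      have h2 := Matrix.det_le (abv := AbsoluteValue.abs)
        (A := (gram w).updateRow j (Pi.single i 1)) (x := ((d * R ^ 2 : ℕ) : ℤ)) (by
          intro i' j'
          show |(gram w).updateRow j (Pi.single i 1) i' j'| ≤ _
          by_cases h : i' = j
          · subst h
            rw [Matrix.updateRow_self]
            by_cases h' : j' = i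
            · subst h'
              rw [Pi.single_eq_same, abs_one]
              exact hdR
            · rw [Pi.single_eq_of_ne h', abs_zero]
              positivity
          · rw [Matrix.updateRow_ne h]
            exact gram_entry_bound w R hwR i' j')
      refine le_trans h2 ?_
      rw [Fintype.card_fin, nsmul_eq_mul]
      push_cast
      exact le_refl _
    have hbb : ∀ j, |b j| ≤ ((d * R ^ 2 : ℕ) : ℤ) := by
      intro j
      have h1 := gram_entry_bound w R hwR j j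
      have h2 : gram w j j = b j := by
        simp only [gram, Matrix.of_apply, hb]
        exact Finset.sum_congr rfl fun l _ => by ring
      rwa [h2] at h1
    have hzb : ∀ j, |z j| ≤ ((k * (k.factorial * (d * R ^ 2) ^ k) * (d * R ^ 2) : ℕ) : ℤ) := by
      intro j
      simp only [hz, Matrix.mulVec, dotProduct]
      refine (Finset.abs_sum_le_sum_abs _ _).trans ?_
      have h1 : ∀ i ∈ (Finset.univ : Finset (Fin k)), |(gram w).adjugate j i * b i| ≤
          ((k.factorial * (d * R ^ 2) ^ k : ℕ) : ℤ) * ((d * R ^ 2 : ℕ) : ℤ) := by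
        intro i _
        rw [abs_mul]
        exact mul_le_mul (hadj j i) (hbb i) (abs_nonneg _) (by positivity)
      refine (Finset.sum_le_sum h1).trans ?_
      rw [Finset.sum_const, Finset.card_univ, Fintype.card_fin, nsmul_eq_mul]
      push_cast
      exact le_of_eq (by ring)
    have hAb : ∀ l, |A l| ≤
        ((k * (k * (k.factorial * (d * R ^ 2) ^ k) * (d * R ^ 2)) * R : ℕ) : ℤ) := by
      intro l
      simp only [hA]
      refine (Finset.abs_sum_le_sum_abs _ _).trans ?_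
      have h1 : ∀ j ∈ (Finset.univ : Finset (Fin k)), |z j * w j l| ≤
          ((k * (k.factorial * (d * R ^ 2) ^ k) * (d * R ^ 2) : ℕ) : ℤ) * (R : ℤ) := by
        intro j _
        rw [abs_mul]
        exact mul_le_mul (hzb j) (hwR j l) (abs_nonneg _) (by positivity)
      refine (Finset.sum_le_sum h1).trans ?_
      rw [Finset.sum_const, Finset.card_univ, Fintype.card_fin, nsmul_eq_mul]
      push_cast
      exact le_of_eq (by ring)
    have h2 : ∀ i ∈ (Finset.univ : Finset (Fin d)), A i ^ 2 ≤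
        ((k * (k * (k.factorial * (d * R ^ 2) ^ k) * (d * R ^ 2)) * R : ℕ) : ℤ) ^ 2 := by
      intro i _
      rw [← sq_abs (A i)]
      exact pow_le_pow_left₀ (abs_nonneg _) (hAb i) 2
    refine (Finset.sum_le_sum h2).trans ?_
    rw [Finset.sum_const, Finset.card_univ, Fintype.card_fin, nsmul_eq_mul, centerBound]
    push_cast
    exact le_refl _

end Pool.Agent.TH998.Tor
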