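import Mathlib
import Pool.Agent.TH998.Tor.Gram
import Pool.Agent.TH998.Tor.Rank

set_option autoImplicit false

namespace Pool.Agent.TH998.Tor

open Module

variable {d : ℕ}

/-- The set lies on a sphere through the origin (or in such a degenerate sphere). -/
def Cosph (V : Set (Fin d → ℤ)) : Prop :=
  ∃ a : Fin d → ℚ, ∀ v ∈ V, ∑ i, (v i : ℚ) ^ 2 = ∑ i, a i * (v i : ℚ)

/-- The induction statement. -/
def Hyp (d r : ℕ) (C δ : ℝ) : Prop :=
  ∀ ρ : ℕ, 1 ≤ ρ → ∀ V : Finset (Fin d → ℤ), (∀ v ∈ V, ∀ i, |v i| ≤ (ρ : ℤ)) →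
    Cosph (V : Set (Fin d → ℤ)) → finrank ℚ (sp (V : Set (Fin d → ℤ))) ≤ r →
    ∀ D : ℕ, C * (ρ : ℝ) ^ (1 - δ) ≤ D → Inj V D

/-- The box. -/
noncomputable def box (d ρ : ℕ) : Finset (Fin d → ℤ) :=
  Fintype.piFinset fun _ => Finset.Icc (-(ρ : ℤ)) ρ

lemma mem_box {ρ : ℕ} {y : Fin d → ℤ} : y ∈ box d ρ ↔ ∀ i, |y i| ≤ (ρ : ℤ) := by
  simp only [box, Fintype.mem_piFinset, Finset.mem_Icc, abs_le]

lemma box_mono {ρ ρ' : ℕ} (h : ρ ≤ ρ') {y : Fin d → ℤ} (hy : y ∈ box d ρ) : y ∈ box d ρ' := by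
  rw [mem_box] at hy ⊢
  intro i
  exact (hy i).trans (by exact_mod_cast h)

lemma box_card (d ρ : ℕ) : (box d ρ).card = (2 * ρ + 1) ^ d := by
  simp only [box, Fintype.card_piFinset, Int.card_Icc, Finset.prod_const, Finset.card_univ,
    Fintype.card_fin]
  congr 1
  omega

open Classical in
/-- The maximal configuration determined by `u`. -/
noncomputable def Wc {r : ℕ} (ρ : ℕ) (u : Fin r → (Fin d → ℤ)) : Finset (Fin d → ℤ) :=
  (box d ρ).filter fun y => ∃ x : Fin r → ℚ, (∀ l, (y l : ℚ) = ∑ i, x i * (u i l : ℚ)) ∧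
    ∑ l, (y l : ℚ) ^ 2 = ∑ i, x i * ∑ l, (u i l : ℚ) ^ 2

lemma mem_Wc {r ρ : ℕ} {u : Fin r → (Fin d → ℤ)} {y : Fin d → ℤ} :
    y ∈ Wc ρ u ↔ (∀ i, |y i| ≤ (ρ : ℤ)) ∧ ∃ x : Fin r → ℚ,
      (∀ l, (y l : ℚ) = ∑ i, x i * (u i l : ℚ)) ∧
      ∑ l, (y l : ℚ) ^ 2 = ∑ i, x i * ∑ l, (u i l : ℚ) ^ 2 := by
  classical
  simp only [Wc, Finset.mem_filter, mem_box]

lemma zero_mem_Wc {r ρ : ℕ} (u : Fin r → (Fin d → ℤ)) : (0 : Fin d → ℤ) ∈ Wc ρ u := by
  rw [mem_Wc]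
  refine ⟨fun i => by simp, 0, ?_, ?_⟩
  · intro l; simp
  · simp

lemma Wc_cosph {r ρ : ℕ} {u : Fin r → (Fin d → ℤ)} (hu : Cosph (Set.range u)) :
    Cosph (Wc ρ u : Set (Fin d → ℤ)) := by
  obtain ⟨a, ha⟩ := hu
  refine ⟨a, fun y hy => ?_⟩
  rw [Finset.mem_coe, mem_Wc] at hy
  obtain ⟨-, x, hx1, hx2⟩ := hy
  rw [hx2]
  simp only [hx1, Finset.mul_sum]
  rw [Finset.sum_comm]
  have h1 : ∀ i, ∑ l, x i * (u i l : ℚ) ^ 2 = x i * ∑ l, a l * (u i l : ℚ) := by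
    intro i
    rw [← ha (u i) ⟨i, rfl⟩, Finset.mul_sum]
  rw [Finset.sum_comm]
  rw [Finset.sum_congr rfl (fun i _ => h1 i)]
  simp only [Finset.mul_sum]
  rw [Finset.sum_comm]
  refine Finset.sum_congr rfl fun i _ => ?_
  refine Finset.sum_congr rfl fun l _ => ?_
  ring

lemma Wc_finrank {r ρ : ℕ} (u : Fin r → (Fin d → ℤ)) :
    finrank ℚ (sp (Wc ρ u : Set (Fin d → ℤ))) ≤ r := by
  have hle : sp (Wc ρ u : Set (Fin d → ℤ)) ≤ Submodule.span ℚ (Set.range fun i => cst (u i)) := by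
    unfold sp
    rw [Submodule.span_le]
    rintro _ ⟨y, hy, rfl⟩
    rw [Finset.mem_coe, mem_Wc] at hy
    obtain ⟨-, x, hx1, -⟩ := hy
    rw [SetLike.mem_coe, Submodule.mem_span_range_iff_exists_fun]
    refine ⟨x, ?_⟩
    funext l
    simp only [Finset.sum_apply, Pi.smul_apply, smul_eq_mul, cst]
    exact (hx1 l).symm
  refine (Submodule.finrank_mono hle).trans ?_
  have := finrank_range_le_card (R := ℚ) (fun i => cst (u i))
  rw [Fintype.card_fin] at this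
  exact this

lemma subset_Wc {T : Set (Fin d → ℤ)} {r ρ : ℕ} (hT : ∀ y ∈ T, ∀ i, |y i| ≤ (ρ : ℤ))
    (hc : Cosph T) (hr : finrank ℚ (sp T) ≤ r) :
    ∃ u : Fin r → (Fin d → ℤ), (∀ i, u i ∈ box d ρ) ∧ Cosph (Set.range u) ∧
      ∀ y ∈ T, y ∈ Wc ρ u := by
  obtain ⟨u, hu1, hu2⟩ := span_family T r hr
  obtain ⟨a, ha⟩ := hc
  have hau : ∀ i, ∑ l, (u i l : ℚ) ^ 2 = ∑ l, a l * (u i l : ℚ) := by
    intro i
    rcases hu1 i with h | h
    · exact ha _ h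
    · rw [h]; simp
  refine ⟨u, ?_, ⟨a, ?_⟩, ?_⟩
  · intro i
    rw [mem_box]
    rcases hu1 i with h | h
    · exact hT _ h
    · rw [h]; simp
  · rintro _ ⟨i, rfl⟩
    exact hau i
  · intro y hy
    rw [mem_Wc]
    obtain ⟨x, hx⟩ := hu2 y hy
    refine ⟨hT y hy, x, hx, ?_⟩
    rw [ha y hy]
    simp only [hau, hx, Finset.mul_sum]
    rw [Finset.sum_comm]
    refine Finset.sum_congr rfl fun i _ => ?_
    refine Finset.sum_congr rfl fun l _ => ?_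
    ring

/-- The exponent in the bound for the Gram determinants. -/
def Eb (d e ρ : ℕ) : ℕ :=
  (2 * ρ + 1) ^ d * ((2 * ρ + 1) * d + (d * (e + 1) + ρ * (2 * (d * e))))

lemma gramBound_le (d w e ρ : ℕ) (hw : w ≤ (2 * ρ + 1) ^ d) :
    gramBound d w e ρ ≤ 2 ^ Eb d e ρ := by
  unfold gramBound Eb
  set w' := (2 * ρ + 1) ^ d with hw'
  rw [mul_add, pow_add]
  refine Nat.mul_le_mul ?_ ?_
  · calc w.factorial ≤ w'.factorial := Nat.factorial_le hw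
      _ ≤ w' ^ w' := Nat.factorial_le_pow w'
      _ = ((2 * ρ + 1) ^ d) ^ w' := by rw [← hw']
      _ ≤ ((2 ^ (2 * ρ + 1)) ^ d) ^ w' :=
          Nat.pow_le_pow_left (Nat.pow_le_pow_left Nat.lt_two_pow_self.le d) w'
      _ = 2 ^ (w' * ((2 * ρ + 1) * d)) := by
          rw [← pow_mul, ← pow_mul]
          congr 1
          ring
  · have h : (e + 1) ^ d * ρ ^ (2 * (d * e)) ≤ 2 ^ (d * (e + 1) + ρ * (2 * (d * e))) := by
      rw [pow_add]
      refine Nat.mul_le_mul ?_ ?_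
      · calc (e + 1) ^ d ≤ (2 ^ (e + 1)) ^ d := Nat.pow_le_pow_left Nat.lt_two_pow_self.le d
          _ = 2 ^ (d * (e + 1)) := by rw [← pow_mul, mul_comm]
      · calc ρ ^ (2 * (d * e)) ≤ (2 ^ ρ) ^ (2 * (d * e)) :=
              Nat.pow_le_pow_left Nat.lt_two_pow_self.le _
          _ = 2 ^ (ρ * (2 * (d * e))) := by rw [← pow_mul]
    calc ((e + 1) ^ d * ρ ^ (2 * (d * e))) ^ w
        ≤ (2 ^ (d * (e + 1) + ρ * (2 * (d * e)))) ^ w := Nat.pow_le_pow_left h w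
      _ ≤ (2 ^ (d * (e + 1) + ρ * (2 * (d * e)))) ^ w' :=
          Nat.pow_le_pow_right (by positivity) hw
      _ = 2 ^ (w' * (d * (e + 1) + ρ * (2 * (d * e)))) := by rw [← pow_mul, mul_comm]

lemma exists_Delta {r : ℕ} {C δ : ℝ} (H : Hyp d r C δ) (ρ : ℕ) (hρ : 1 ≤ ρ) (e : ℕ)
    (he : C * (ρ : ℝ) ^ (1 - δ) ≤ e) (u : Fin r → (Fin d → ℤ)) :
    ∃ Δ : ℕ, Δ ≠ 0 ∧ Δ ≤ 2 ^ Eb d e ρ ∧ (Cosph (Set.range u) →
      ∃ q : (Fin d → Fin (e + 1)) → ℤ, (∀ t ∈ Wc ρ u, t ≠ 0 → ev q t = 0) ∧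
        (ev q 0).natAbs = Δ) := by
  by_cases hu : Cosph (Set.range u)
  · have hbox : ∀ v ∈ Wc ρ u, ∀ i, |v i| ≤ (ρ : ℤ) := fun v hv => (mem_Wc.mp hv).1
    have hinj := H ρ hρ (Wc ρ u) hbox (Wc_cosph hu) (Wc_finrank u) e he
    obtain ⟨Δ, h1, h2, h3⟩ := gram_sep (Wc ρ u) e ρ hρ hbox hinj
    refine ⟨Δ, h1, h2.trans (gramBound_le _ _ _ _ ?_), fun _ => h3 0 (zero_mem_Wc u)⟩
    rw [← box_card]
    exact Finset.card_le_card fun v hv => mem_box.mpr (mem_Wc.mp hv).1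
  · exact ⟨1, one_ne_zero, Nat.one_le_two_pow, fun h => absurd h hu⟩

lemma Hyp_zero (d : ℕ) : Hyp d 0 0 1 := by
  intro ρ _ V _ _ hr D _ a ha x hx
  have h0 : ∀ v ∈ V, v = 0 := by
    intro v hv
    have h1 : cst v ∈ sp (V : Set (Fin d → ℤ)) := cst_mem_sp (Finset.mem_coe.mpr hv)
    have h2 : sp (V : Set (Fin d → ℤ)) = ⊥ := Submodule.finrank_eq_zero.mp (by omega)
    rw [h2, Submodule.mem_bot] at h1
    funext i
    have := congrFun h1 i
    simpa [cst] using this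
  have h1 := ha (fun _ => 1) (IP.const D 1)
  have h2 : V = {x} := by
    ext v
    rw [Finset.mem_singleton]
    constructor
    · intro hv; rw [h0 v hv, h0 x hx]
    · intro hv; rw [hv]; exact hx
  rw [h2, Finset.sum_singleton] at h1
  simpa using h1

lemma Hyp_one (d : ℕ) : Hyp d 1 1 1 := by
  intro ρ _ V _ hcos hr e he a ha
  have he1 : 1 ≤ e := by
    simp at he
    exact he
  have huniq : ∀ u ∈ V, ∀ v ∈ V, u ≠ 0 → v ≠ 0 → u = v := by
    intro u hu v hv hu0 hv0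
    obtain ⟨w, -, hw⟩ := span_family (V : Set (Fin d → ℤ)) 1 hr
    obtain ⟨b, hb⟩ := hcos
    obtain ⟨x, hx⟩ := hw u hu
    obtain ⟨y, hy⟩ := hw v hv
    simp only [Fin.sum_univ_one] at hx hy
    have h1 : ∀ (t : ℚ) (z : Fin d → ℤ), z ∈ V → z ≠ 0 → (∀ l, (z l : ℚ) = t * (w 0 l : ℚ)) →
        t ≠ 0 ∧ t * ∑ l, (w 0 l : ℚ) ^ 2 = ∑ l, b l * (w 0 l : ℚ) := by
      intro t z hz hz0 hzt
      have ht0 : t ≠ 0 := by
        intro h0
        apply hz0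
        funext l
        have := hzt l
        rw [h0, zero_mul] at this
        exact_mod_cast this
      refine ⟨ht0, ?_⟩
      have h2 := hb z hz
      simp only [hzt] at h2
      have h3 : ∑ l, (t * (w 0 l : ℚ)) ^ 2 = t * (t * ∑ l, (w 0 l : ℚ) ^ 2) := by
        simp only [Finset.mul_sum]
        exact Finset.sum_congr rfl fun l _ => by ring
      have h4 : ∑ l, b l * (t * (w 0 l : ℚ)) = t * ∑ l, b l * (w 0 l : ℚ) := by
        simp only [Finset.mul_sum]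
        exact Finset.sum_congr rfl fun l _ => by ring
      rw [h3, h4] at h2
      exact mul_left_cancel₀ ht0 h2
    obtain ⟨hx0, hx1⟩ := h1 (x 0) u hu hu0 hx
    obtain ⟨hy0, hy1⟩ := h1 (y 0) v hv hv0 hy
    have hw0 : ∑ l, (w 0 l : ℚ) ^ 2 ≠ 0 := by
      intro h0
      rw [Finset.sum_eq_zero_iff_of_nonneg (fun i _ => sq_nonneg _)] at h0
      apply hu0
      funext l
      have h2 := pow_eq_zero_iff (two_ne_zero) |>.mp (h0 l (Finset.mem_univ _))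
      have h3 := hx l
      rw [h2, mul_zero] at h3
      exact_mod_cast h3
    have hxy : x 0 = y 0 := mul_right_cancel₀ hw0 (hx1.trans hy1.symm)
    funext l
    have h2 : (u l : ℚ) = (v l : ℚ) := by rw [hx l, hy l, hxy]
    exact_mod_cast h2
  have hnz : ∀ x ∈ V, x ≠ 0 → a x = 0 := by
    intro x hx hx0
    obtain ⟨i, hi⟩ := Function.ne_iff.mp hx0
    have h1 := ha (fun y => y i) ((IP.coord i).mono he1)
    rw [Finset.sum_eq_single_of_mem x hx (by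
      intro y hy hyx
      by_cases hy0 : y = 0
      · rw [hy0]; simp
      · exact absurd (huniq y hy x hx hy0 hx0) hyx)] at h1
    have h2 : ((x i : ℤ) : ℂ) ≠ 0 := by exact_mod_cast hi
    exact (mul_eq_zero.mp h1).resolve_right h2
  intro x hx
  by_cases hx0 : x = 0
  · have h1 := ha (fun _ => 1) (IP.const e 1)
    rw [Finset.sum_eq_single_of_mem x hx (by
      intro y hy hyx
      rw [hnz y hy (fun h => hyx (h.trans hx0.symm)), zero_mul])] at h1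
    simpa using h1
  · exact hnz x hx hx0

end Pool.Agent.TH998.Tor
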