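import Mathlib

set_option autoImplicit false

namespace Pool.Agent.TH998.Tor

lemma error_small (X : ℕ) (hX : 10 ^ 8 ≤ X) :
    Real.log ((X : ℝ) + 1) + 2 * Real.sqrt X * Real.log X ≤ (Real.log 2 / 4) * X := by
  have hXR : (10 : ℝ) ^ 8 ≤ X := by exact_mod_cast hX
  have hX0 : (0 : ℝ) < X := by linarith [show (0 : ℝ) < 10 ^ 8 by norm_num]
  set t : ℝ := (X : ℝ) ^ ((1 : ℝ) / 4) with ht
  have ht4 : t ^ 4 = X := by
    rw [ht, ← Real.rpow_natCast, ← Real.rpow_mul hX0.le]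
    norm_num
  have ht100 : 100 ≤ t := by
    by_contra hcon
    push Not at hcon
    have h1 : t ^ 4 < 100 ^ 4 := pow_lt_pow_left₀ hcon (by positivity) (by norm_num)
    rw [ht4] at h1
    norm_num at h1 hXR
    linarith
  have hsqrt : Real.sqrt X = t ^ 2 := by
    rw [← ht4, show t ^ 4 = (t ^ 2) ^ 2 by ring]
    exact Real.sqrt_sq (by positivity)
  have hlog : Real.log X ≤ 4 * t := by
    have h1 := Real.log_le_rpow_div hX0.le (show (0 : ℝ) < 1 / 4 by norm_num)
    rw [← ht] at h1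
    linarith
  have hlog1 : Real.log ((X : ℝ) + 1) ≤ 1 + 4 * t := by
    have h4 : Real.log ((X : ℝ) + 1) ≤ Real.log (2 * X) :=
      Real.log_le_log (by linarith) (by linarith [show (1 : ℝ) ≤ 10 ^ 8 by norm_num])
    rw [Real.log_mul (by norm_num) hX0.ne'] at h4
    have h5 : Real.log 2 ≤ 1 := by linarith [Real.log_two_lt_d9]
    linarith
  have hl2 : (0.69 : ℝ) ≤ Real.log 2 := by linarith [Real.log_two_gt_d9]
  rw [hsqrt, ← ht4]
  have h6 : 2 * t ^ 2 * Real.log (t ^ 4) ≤ 8 * t ^ 3 := by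
    rw [ht4]
    calc 2 * t ^ 2 * Real.log X ≤ 2 * t ^ 2 * (4 * t) :=
          mul_le_mul_of_nonneg_left hlog (by positivity)
      _ = 8 * t ^ 3 := by ring
  have h7 : Real.log (t ^ 4 + 1) ≤ 1 + 4 * t := by rw [ht4]; exact hlog1
  have h8 : 1 + 4 * t ≤ 8 * t ^ 3 := by nlinarith [mul_pos (show (0:ℝ) < t by linarith) (show (0:ℝ) < t by linarith)]
  have h9 : 16 * t ^ 3 ≤ (0.69 / 4) * t ^ 4 := by
    have : 0 ≤ t ^ 3 := by positivity
    nlinarith
  have h10 : (0.69 / 4) * t ^ 4 ≤ Real.log 2 / 4 * t ^ 4 :=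
    mul_le_mul_of_nonneg_right (by linarith) (by positivity)
  linarith

lemma theta_large (c L : ℕ) : ∃ M₀ : ℕ, ∀ M : ℕ, M₀ ≤ M →
    Chebyshev.theta ((M ^ (L + 1) / 8 : ℕ) : ℝ) + ((c * M ^ L : ℕ) : ℝ) * Real.log 2 <
      Chebyshev.theta ((M ^ (L + 1) : ℕ) : ℝ) := by
  refine ⟨max (4 * c) (10 ^ 8), fun M hM => ?_⟩
  have hMc : 4 * c ≤ M := le_trans (le_max_left _ _) hM
  have hM8 : 10 ^ 8 ≤ M := le_trans (le_max_right _ _) hM
  have hM1 : 1 ≤ M := le_trans (by norm_num) hM8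
  set X : ℕ := M ^ (L + 1) with hX
  have hX8 : 10 ^ 8 ≤ X := by
    calc 10 ^ 8 ≤ M := hM8
      _ = M ^ 1 := (pow_one M).symm
      _ ≤ M ^ (L + 1) := Nat.pow_le_pow_right hM1 (by omega)
  have h1 := Chebyshev.theta_ge X
  have h2 := error_small X hX8
  have h3 : Chebyshev.theta ((X / 8 : ℕ) : ℝ) ≤ Real.log 2 / 4 * X := by
    refine (Chebyshev.theta_le_log4_mul_x (by positivity)).trans ?_
    have h4 : Real.log 4 = 2 * Real.log 2 := by
      rw [show (4 : ℝ) = 2 ^ 2 by norm_num, Real.log_pow]; norm_num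
    have h5 : ((X / 8 : ℕ) : ℝ) ≤ (X : ℝ) / 8 := by
      have := @Nat.cast_div_le ℝ _ _ _ X 8
      simpa using this
    rw [h4]
    have hl : 0 < Real.log 2 := Real.log_pos (by norm_num)
    nlinarith
  have h6 : ((c * M ^ L : ℕ) : ℝ) ≤ (X : ℝ) / 4 := by
    have h7 : 4 * (c * M ^ L) ≤ X := by
      calc 4 * (c * M ^ L) = (4 * c) * M ^ L := by ring
        _ ≤ M * M ^ L := Nat.mul_le_mul_right _ hMc
        _ = X := by rw [hX, pow_succ]; ring
    have h8 : (4 : ℝ) * ((c * M ^ L : ℕ) : ℝ) ≤ X := by exact_mod_cast h7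
    linarith
  have hl : 0 < Real.log 2 := Real.log_pos (by norm_num)
  have hXpos : (0 : ℝ) < X := by
    have : 0 < X := by omega
    exact_mod_cast this
  have h9 : ((c * M ^ L : ℕ) : ℝ) * Real.log 2 ≤ (X : ℝ) / 4 * Real.log 2 :=
    mul_le_mul_of_nonneg_right h6 hl.le
  have h10 : 0 < (X : ℝ) * Real.log 2 := by positivity
  linarith

lemma sum_log_primeFactors (n E : ℕ) (hn : n ≠ 0) (h : n ≤ 2 ^ E) :
    ∑ p ∈ n.primeFactors, Real.log p ≤ E * Real.log 2 := by
  rw [← Real.log_prod (fun p hp => by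
    have := (Nat.prime_of_mem_primeFactors hp).ne_zero
    exact_mod_cast this), ← Real.log_pow]
  have h2 : ∏ p ∈ n.primeFactors, p ≤ 2 ^ E :=
    (Nat.le_of_dvd (Nat.pos_of_ne_zero hn) (Nat.prod_primeFactors_dvd n)).trans h
  have h3 : ∏ p ∈ n.primeFactors, (p : ℝ) ≤ 2 ^ E := by
    have h4 : ((∏ p ∈ n.primeFactors, p : ℕ) : ℝ) ≤ ((2 ^ E : ℕ) : ℝ) := Nat.cast_le.mpr h2
    rw [Nat.cast_prod] at h4
    push_cast at h4
    exact h4
  refine Real.log_le_log ?_ h3
  exact Finset.prod_pos fun p hp => by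
    have := (Nat.prime_of_mem_primeFactors hp).pos
    exact_mod_cast this

lemma exists_good_prime {ι : Type*} (B : Finset ι) (N E : ι → ℕ) (hN : ∀ i ∈ B, N i ≠ 0)
    (hE : ∀ i ∈ B, N i ≤ 2 ^ E i) (P X : ℕ)
    (h : Chebyshev.theta (P : ℝ) + ((∑ i ∈ B, E i : ℕ) : ℝ) * Real.log 2 <
      Chebyshev.theta (X : ℝ)) :
    ∃ p, p.Prime ∧ P < p ∧ p ≤ X ∧ ∀ i ∈ B, ¬ p ∣ N i := by
  classical
  by_contra hcon
  push Not at hcon
  have h1 : Nat.primesLE X ⊆ Nat.primesLE P ∪ B.biUnion (fun i => (N i).primeFactors) := by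
    intro p hp
    rw [Nat.primesLE_eq_filter_range, Finset.mem_filter, Finset.mem_range] at hp
    rw [Finset.mem_union, Nat.primesLE_eq_filter_range, Finset.mem_filter, Finset.mem_range,
      Finset.mem_biUnion]
    by_cases hpP : p ≤ P
    · left; exact ⟨by omega, hp.2⟩
    · right
      obtain ⟨i, hi, hdvd⟩ := hcon p hp.2 (by omega) (by omega)
      exact ⟨i, hi, Nat.mem_primeFactors.mpr ⟨hp.2, hdvd, hN i hi⟩⟩
  have hnn : ∀ p : ℕ, 0 ≤ Real.log p := fun p => Real.log_natCast_nonneg p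
  have h2 : Chebyshev.theta (X : ℝ) ≤
      ∑ p ∈ Nat.primesLE P ∪ B.biUnion (fun i => (N i).primeFactors), Real.log p := by
    rw [Chebyshev.theta_eq_sum_primesLE_log]
    exact Finset.sum_le_sum_of_subset_of_nonneg h1 fun p _ _ => hnn p
  have h3 : ∑ p ∈ Nat.primesLE P ∪ B.biUnion (fun i => (N i).primeFactors), Real.log p ≤
      ∑ p ∈ Nat.primesLE P, Real.log p +
        ∑ p ∈ B.biUnion (fun i => (N i).primeFactors), Real.log p := by
    rw [← Finset.sum_union_inter]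
    have := Finset.sum_nonneg (s := Nat.primesLE P ∩ B.biUnion (fun i => (N i).primeFactors))
      (f := fun p : ℕ => Real.log p) (fun p _ => hnn p)
    linarith
  have h4 : ∑ p ∈ B.biUnion (fun i => (N i).primeFactors), Real.log p ≤
      ∑ i ∈ B, ∑ p ∈ (N i).primeFactors, Real.log p := by
    clear h h1 h2 h3 hcon hN hE
    induction B using Finset.induction_on with
    | empty => simp
    | insert a B ha ih =>
      rw [Finset.biUnion_insert, Finset.sum_insert ha]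
      have h5 : ∑ p ∈ (N a).primeFactors ∪ B.biUnion (fun i => (N i).primeFactors), Real.log p ≤
          ∑ p ∈ (N a).primeFactors, Real.log p +
            ∑ p ∈ B.biUnion (fun i => (N i).primeFactors), Real.log p := by
        rw [← Finset.sum_union_inter]
        have := Finset.sum_nonneg
          (s := (N a).primeFactors ∩ B.biUnion (fun i => (N i).primeFactors))
          (f := fun p : ℕ => Real.log p) (fun p _ => hnn p)
        linarith
      linarith
  have h6 : ∑ i ∈ B, ∑ p ∈ (N i).primeFactors, Real.log p ≤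
      ((∑ i ∈ B, E i : ℕ) : ℝ) * Real.log 2 := by
    push_cast
    rw [Finset.sum_mul]
    exact Finset.sum_le_sum fun i hi => sum_log_primeFactors _ _ (hN i hi) (hE i hi)
  rw [Chebyshev.theta_eq_sum_primesLE_log] at h
  linarith

end Pool.Agent.TH998.Tor
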