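import Mathlib
import Pool.Agent.TH998.Tor.Family
import Pool.Agent.TH998.Tor.Primes

set_option autoImplicit false

namespace Pool.Agent.TH998.Tor

/-- The exponent `L`. -/
def LL (d : ℕ) : ℕ := d ^ 2 + 3

lemma Eb_bound (d Cn M ρ e : ℕ) (hM : 1 ≤ M) (hρ : ρ ≤ 16 * M) (he : e ≤ Cn * ρ) :
    Eb d e ρ ≤ (33 ^ d * (33 * d + d * (16 * Cn + 1) + 512 * (d * Cn))) * M ^ (d + 2) := by
  have hw : 2 * ρ + 1 ≤ 33 * M := by omega
  have he' : e ≤ 16 * Cn * M := by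
    calc e ≤ Cn * ρ := he
      _ ≤ Cn * (16 * M) := Nat.mul_le_mul_left _ hρ
      _ = 16 * Cn * M := by ring
  unfold Eb
  have hM2 : M ≤ M ^ 2 := by nlinarith
  have hM1 : 1 ≤ M ^ 2 := Nat.one_le_pow _ _ hM
  calc (2 * ρ + 1) ^ d * ((2 * ρ + 1) * d + (d * (e + 1) + ρ * (2 * (d * e))))
      ≤ (33 * M) ^ d * ((33 * M) * d + (d * (16 * Cn * M + 1) +
        (16 * M) * (2 * (d * (16 * Cn * M))))) := by gcongr
    _ = (33 * M) ^ d * (33 * d * M + (d * (16 * Cn * M + 1) + 512 * (d * Cn) * M ^ 2)) := by ring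
    _ ≤ (33 * M) ^ d * (33 * d * M ^ 2 + (d * (16 * Cn * M ^ 2 + M ^ 2) +
        512 * (d * Cn) * M ^ 2)) := by gcongr
    _ = _ := by rw [mul_pow, pow_add]; ring

/-- The prime selection. -/
lemma prime_selection (d r : ℕ) (hr : r + 1 ≤ d) (Cn c₀ j : ℕ) : ∃ M₀ : ℕ, ∀ M : ℕ, M₀ ≤ M →
    ∀ (R m : ℕ), R ≤ M ^ (LL d + 2) → m ≠ 0 → m ≤ c₀ * R ^ j →
    ∀ (e : ℕ → ℕ), (∀ ρ, e ρ ≤ Cn * ρ) →
    ∀ (Δ : ℕ → (Fin r → (Fin d → ℤ)) → ℕ), (∀ ρ u, Δ ρ u ≠ 0) →
    (∀ ρ, 1 ≤ ρ → ∀ u, Δ ρ u ≤ 2 ^ Eb d (e ρ) ρ) →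
    ∃ p, p.Prime ∧ M ^ (LL d + 1) < p * 8 ∧ p ≤ M ^ (LL d + 1) ∧ ¬ p ∣ m ∧
      (∀ ρ, 1 ≤ ρ → ρ ≤ 16 * M → ∀ u : Fin r → (Fin d → ℤ), (∀ i, u i ∈ box d ρ) →
        ¬ p ∣ Δ ρ u) ∧
      (∀ k, k ≤ r + 1 → ∀ ρ, ρ ≤ 16 * M → k.factorial * (d * ρ ^ 2) ^ k < p) := by
  set cE : ℕ := 33 ^ d * (33 * d + d * (16 * Cn + 1) + 512 * (d * Cn)) with hcE
  set c : ℕ := 16 * 33 ^ (d * r) * (cE + c₀ + (LL d + 2) * j) with hc
  obtain ⟨M₁, hM₁⟩ := theta_large c (LL d)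
  refine ⟨max M₁ (max 1 (8 * (d.factorial * (256 * d) ^ d))), ?_⟩
  intro M hM R m hR hm0 hm e he Δ hΔ0 hΔ
  have hMM₁ : M₁ ≤ M := le_trans (le_max_left _ _) hM
  have hM1 : 1 ≤ M := le_trans (le_trans (le_max_left _ _) (le_max_right _ _)) hM
  have hMb : 8 * (d.factorial * (256 * d) ^ d) ≤ M :=
    le_trans (le_trans (le_max_right _ _) (le_max_right _ _)) hM
  have hd1 : 1 ≤ d := by omega
  set Em : ℕ := (c₀ + (LL d + 2) * j) * M with hEm
  have hmE : m ≤ 2 ^ Em := by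
    calc m ≤ c₀ * R ^ j := hm
      _ ≤ 2 ^ c₀ * ((2 ^ M) ^ (LL d + 2)) ^ j := by
          refine Nat.mul_le_mul Nat.lt_two_pow_self.le (Nat.pow_le_pow_left ?_ j)
          exact hR.trans (Nat.pow_le_pow_left Nat.lt_two_pow_self.le _)
      _ = 2 ^ (c₀ + M * (LL d + 2) * j) := by
          rw [← pow_mul, ← pow_mul, ← pow_add, mul_assoc]
      _ ≤ 2 ^ Em := by
          refine Nat.pow_le_pow_right (by norm_num) ?_
          rw [hEm]
          nlinarith [Nat.mul_le_mul_left c₀ hM1]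
  let B : Finset (ℕ × (Fin r → (Fin d → ℤ))) :=
    (Finset.Icc 1 (16 * M)) ×ˢ (Fintype.piFinset fun _ => box d (16 * M))
  have hBc : B.card ≤ 16 * 33 ^ (d * r) * M ^ (d * r + 1) := by
    simp only [B, Finset.card_product, Nat.card_Icc, Fintype.card_piFinset, Finset.prod_const,
      Finset.card_univ, Fintype.card_fin, box_card]
    calc (16 * M + 1 - 1) * ((2 * (16 * M) + 1) ^ d) ^ r
        ≤ (16 * M) * ((33 * M) ^ d) ^ r := by
          refine Nat.mul_le_mul (by omega) (Nat.pow_le_pow_left (Nat.pow_le_pow_left ?_ d) r)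
          omega
      _ = 16 * 33 ^ (d * r) * M ^ (d * r + 1) := by
          rw [← pow_mul, mul_pow]
          ring
  have hsumN : ∑ i ∈ B, (Eb d (e i.1) i.1 + Em) ≤ c * M ^ LL d := by
    have h1 : ∀ i ∈ B, Eb d (e i.1) i.1 + Em ≤
        (cE + c₀ + (LL d + 2) * j) * M ^ (d + 2) := by
      intro i hi
      have hi1 : i.1 ≤ 16 * M := by
        have := (Finset.mem_product.mp hi).1
        rw [Finset.mem_Icc] at this
        exact this.2
      have h2 := Eb_bound d Cn M i.1 (e i.1) hM1 hi1 (he i.1)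
      have h3 : Em ≤ (c₀ + (LL d + 2) * j) * M ^ (d + 2) := by
        rw [hEm]
        refine Nat.mul_le_mul_left _ ?_
        calc M = M ^ 1 := (pow_one M).symm
          _ ≤ M ^ (d + 2) := Nat.pow_le_pow_right hM1 (by omega)
      calc _ ≤ cE * M ^ (d + 2) + (c₀ + (LL d + 2) * j) * M ^ (d + 2) := by
            exact Nat.add_le_add h2 h3
        _ = _ := by ring
    have h4 := Finset.sum_le_sum h1
    rw [Finset.sum_const, smul_eq_mul] at h4
    refine h4.trans ?_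
    calc B.card * ((cE + c₀ + (LL d + 2) * j) * M ^ (d + 2))
        ≤ (16 * 33 ^ (d * r) * M ^ (d * r + 1)) *
          ((cE + c₀ + (LL d + 2) * j) * M ^ (d + 2)) := Nat.mul_le_mul_right _ hBc
      _ = c * M ^ (d * r + 1 + (d + 2)) := by
          rw [pow_add M (d * r + 1), hc]; ring
      _ ≤ _ := by
          refine Nat.mul_le_mul_left _ (Nat.pow_le_pow_right hM1 ?_)
          have : d * r + d ≤ d ^ 2 := by nlinarith
          unfold LL
          omega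
  have hsum : Chebyshev.theta ((M ^ (LL d + 1) / 8 : ℕ) : ℝ) +
      ((∑ i ∈ B, (Eb d (e i.1) i.1 + Em) : ℕ) : ℝ) * Real.log 2 <
      Chebyshev.theta ((M ^ (LL d + 1) : ℕ) : ℝ) := by
    refine lt_of_le_of_lt ?_ (hM₁ M hMM₁)
    have hl : 0 ≤ Real.log 2 := Real.log_nonneg (by norm_num)
    have h1 : ((∑ i ∈ B, (Eb d (e i.1) i.1 + Em) : ℕ) : ℝ) ≤ ((c * M ^ LL d : ℕ) : ℝ) := by
      exact_mod_cast hsumN
    have h2 := mul_le_mul_of_nonneg_right h1 hl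
    linarith
  obtain ⟨p, hp1, hp2, hp3, hp4⟩ := exists_good_prime B (fun i => Δ i.1 i.2 * m)
    (fun i => Eb d (e i.1) i.1 + Em)
    (fun i _ => Nat.mul_ne_zero (hΔ0 _ _) hm0)
    (fun i hi => by
      have hi1 : 1 ≤ i.1 := by
        have := (Finset.mem_product.mp hi).1
        rw [Finset.mem_Icc] at this
        exact this.1
      rw [pow_add]
      exact Nat.mul_le_mul (hΔ _ hi1 _) hmE)
    (M ^ (LL d + 1) / 8) (M ^ (LL d + 1)) hsum
  have hp8 : M ^ (LL d + 1) < p * 8 := (Nat.div_lt_iff_lt_mul (by norm_num)).mp hp2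
  refine ⟨p, hp1, hp8, hp3, ?_, ?_, ?_⟩
  · intro hd
    refine hp4 (1, fun _ => 0) ?_ (Dvd.dvd.mul_left hd _)
    simp only [B, Finset.mem_product, Finset.mem_Icc, Fintype.mem_piFinset]
    refine ⟨⟨le_rfl, by omega⟩, fun i => ?_⟩
    rw [mem_box]
    intro l
    simp
  · intro ρ h1 h2 u hu hd
    refine hp4 (ρ, u) ?_ (Dvd.dvd.mul_right hd _)
    simp only [B, Finset.mem_product, Finset.mem_Icc, Fintype.mem_piFinset]
    exact ⟨⟨h1, h2⟩, fun i => box_mono h2 (hu i)⟩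
  · intro k hk ρ hρ
    have hkd : k ≤ d := by omega
    have hfin : 8 * (k.factorial * (d * ρ ^ 2) ^ k) ≤ M ^ (LL d + 1) := by
      calc 8 * (k.factorial * (d * ρ ^ 2) ^ k)
          ≤ 8 * (d.factorial * (d * (16 * M) ^ 2) ^ k) := by
            refine Nat.mul_le_mul_left _ ?_
            refine Nat.mul_le_mul (Nat.factorial_le hkd) (Nat.pow_le_pow_left ?_ k)
            exact Nat.mul_le_mul_left _ (Nat.pow_le_pow_left hρ 2)
        _ ≤ 8 * (d.factorial * (d * (16 * M) ^ 2) ^ d) := by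
            refine Nat.mul_le_mul_left _ ?_
            refine Nat.mul_le_mul_left _ (Nat.pow_le_pow_right ?_ hkd)
            exact Nat.mul_pos hd1 (by positivity)
        _ = (8 * (d.factorial * (256 * d) ^ d)) * M ^ (2 * d) := by
            rw [show d * (16 * M) ^ 2 = (256 * d) * M ^ 2 by ring, mul_pow, ← pow_mul]
            ring
        _ ≤ M * M ^ (2 * d) := Nat.mul_le_mul_right _ hMb
        _ = M ^ (2 * d + 1) := by ring
        _ ≤ M ^ (LL d + 1) := by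
            refine Nat.pow_le_pow_right hM1 ?_
            unfold LL
            nlinarith [sq_nonneg ((d : ℤ) - 1)]
    omega

end Pool.Agent.TH998.Tor
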