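import Mathlib
import Pool.Agent.TH998.Tor.Count

set_option autoImplicit false

namespace Pool.Agent.TH998.Tor

open Module

variable {d : ℕ}

lemma class_box (V : Set (Fin d → ℤ)) (R p : ℕ) (hp : 0 < p)
    (hV : ∀ v ∈ V, ∀ i, |v i| ≤ (R : ℤ)) (s : Fin d → ℤ) (hs : s ∈ V) (y : Fin d → ℤ)
    (hy : (fun i => s i + p * y i) ∈ V) (i : Fin d) : |y i| ≤ ((2 * R / p : ℕ) : ℤ) := by
  have h1 := hV s hs i
  have h2 : |s i + p * y i| ≤ (R : ℤ) := hV _ hy i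
  rw [abs_le] at h1 h2
  have hpZ : (0 : ℤ) < p := by exact_mod_cast hp
  have h3 : |y i| * p ≤ 2 * R := by
    have h4 : |(p : ℤ) * y i| ≤ 2 * R := by
      rw [abs_le]
      constructor <;> linarith
    rw [abs_mul, abs_of_pos hpZ] at h4
    linarith
  have h5 : (y i).natAbs * p ≤ 2 * R := by
    have : (((y i).natAbs * p : ℕ) : ℤ) ≤ ((2 * R : ℕ) : ℤ) := by
      push_cast
      exact h3
    exact_mod_cast this
  have h6 : (y i).natAbs ≤ 2 * R / p := (Nat.le_div_iff_mul_le hp).mpr h5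
  rw [← Int.natCast_natAbs]
  exact_mod_cast h6

lemma class_cosph (V : Set (Fin d → ℤ)) (p : ℕ) (hp : p ≠ 0) (D : ℤ) (hD0 : D ≠ 0)
    (A : Fin d → ℤ) (c : ℤ) (hD : ∀ v ∈ V, D * ∑ i, v i ^ 2 = ∑ i, A i * v i + c)
    (s : Fin d → ℤ) (hs : s ∈ V) :
    Cosph {y : Fin d → ℤ | (fun i => s i + p * y i) ∈ V} := by
  refine ⟨fun i => ((A i - 2 * D * s i : ℤ) : ℚ) / ((p : ℚ) * (D : ℚ)), ?_⟩
  intro y hy
  have h1 := hD _ hy
  have h2 := hD s hs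
  have hpZ : (p : ℤ) ≠ 0 := by exact_mod_cast hp
  have e1 : ∑ i, (s i + p * y i) ^ 2 =
      ∑ i, s i ^ 2 + p * (2 * ∑ i, s i * y i + p * ∑ i, y i ^ 2) := by
    simp only [Finset.mul_sum, ← Finset.sum_add_distrib]
    exact Finset.sum_congr rfl fun i _ => by ring
  have e2 : ∑ i, A i * (s i + p * y i) = ∑ i, A i * s i + p * ∑ i, A i * y i := by
    simp only [Finset.mul_sum, ← Finset.sum_add_distrib]
    exact Finset.sum_congr rfl fun i _ => by ring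
  rw [e1, e2] at h1
  have h3 : (p : ℤ) * (D * (2 * ∑ i, s i * y i + p * ∑ i, y i ^ 2)) =
      p * ∑ i, A i * y i := by linarith
  have h4 := mul_left_cancel₀ hpZ h3
  have h5 : (p : ℤ) * D * ∑ i, y i ^ 2 = ∑ i, (A i - 2 * D * s i) * y i := by
    have e3 : ∑ i, (A i - 2 * D * s i) * y i = ∑ i, A i * y i - 2 * D * ∑ i, s i * y i := by
      simp only [Finset.mul_sum, ← Finset.sum_sub_distrib]
      exact Finset.sum_congr rfl fun i _ => by ring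
    rw [e3, ← h4]
    ring
  have h6 : (p : ℚ) * (D : ℚ) * ∑ i, (y i : ℚ) ^ 2 =
      ∑ i, ((A i - 2 * D * s i : ℤ) : ℚ) * (y i : ℚ) := by
    have := congrArg (fun z : ℤ => (z : ℚ)) h5
    push_cast at this ⊢
    exact this
  have hpD : (p : ℚ) * (D : ℚ) ≠ 0 :=
    mul_ne_zero (by exact_mod_cast hp) (by exact_mod_cast hD0)
  have h7 : ∑ i, ((A i - 2 * D * s i : ℤ) : ℚ) / ((p : ℚ) * (D : ℚ)) * (y i : ℚ) =
      (∑ i, ((A i - 2 * D * s i : ℤ) : ℚ) * (y i : ℚ)) / ((p : ℚ) * (D : ℚ)) := by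
    rw [Finset.sum_div]
    exact Finset.sum_congr rfl fun i _ => by ring
  rw [h7, ← h6]
  field_simp

lemma real_bound (L d : ℕ) (C δ : ℝ) (hC : 0 ≤ C) (hδ0 : 0 < δ) (hδ1 : δ ≤ 1) (R M p e : ℕ)
    (hR : 1 ≤ R) (hM1 : 1 ≤ M) (hM : (M : ℝ) ≤ 2 * (R : ℝ) ^ ((1 : ℝ) / (L + 2 : ℕ)))
    (hp0 : 0 < p) (hp : p ≤ M ^ (L + 1))
    (he : (e : ℝ) ≤ C * ((2 * M ^ (L + 2) / p : ℕ) : ℝ) ^ (1 - δ) + 1) :
    ((d * (p - 1) + p * (d * e) : ℕ) : ℝ) ≤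
      (2 * d + 2 * d * C) * 2 ^ (L + 2) * (R : ℝ) ^ (1 - δ / (L + 2 : ℕ)) := by
  have hMR : (1 : ℝ) ≤ M := by exact_mod_cast hM1
  have hM0 : (0 : ℝ) < M := by linarith
  have hpR : (0 : ℝ) < p := by exact_mod_cast hp0
  have hR0 : (1 : ℝ) ≤ R := by exact_mod_cast hR
  have hpM : (p : ℝ) ≤ (M : ℝ) ^ (L + 1) := by exact_mod_cast hp
  set K : ℝ := ((L + 2 : ℕ) : ℝ) with hK
  have hK2 : (2 : ℝ) ≤ K := by rw [hK]; push_cast; linarith [Nat.cast_nonneg (α := ℝ) L]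
  set E : ℝ := (M : ℝ) ^ (K - δ) with hE
  have hE0 : 0 ≤ E := by positivity
  -- the term p
  have h1 : (p : ℝ) ≤ E := by
    refine hpM.trans ?_
    rw [← Real.rpow_natCast, hE]
    refine Real.rpow_le_rpow_of_exponent_le hMR ?_
    rw [hK]; push_cast; linarith
  -- the main term
  have h2 : (p : ℝ) * ((2 * M ^ (L + 2) / p : ℕ) : ℝ) ^ (1 - δ) ≤ 2 * E := by
    have h3 : ((2 * M ^ (L + 2) / p : ℕ) : ℝ) ≤ (2 * (M : ℝ) ^ (L + 2)) / p := by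
      refine (Nat.cast_div_le).trans ?_
      push_cast
      exact le_refl _
    have h4 : ((2 * M ^ (L + 2) / p : ℕ) : ℝ) ^ (1 - δ) ≤
        ((2 * (M : ℝ) ^ (L + 2)) / p) ^ (1 - δ) :=
      Real.rpow_le_rpow (by positivity) h3 (by linarith)
    have h5 : (p : ℝ) * ((2 * (M : ℝ) ^ (L + 2)) / p) ^ (1 - δ) =
        (p : ℝ) ^ δ * (2 * (M : ℝ) ^ (L + 2)) ^ (1 - δ) := by
      rw [Real.div_rpow (by positivity) hpR.le, Real.rpow_sub hpR, Real.rpow_one]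
      field_simp
    have h6 : (p : ℝ) ^ δ ≤ (M : ℝ) ^ ((L + 1 : ℝ) * δ) := by
      calc (p : ℝ) ^ δ ≤ ((M : ℝ) ^ (L + 1)) ^ δ := Real.rpow_le_rpow hpR.le hpM hδ0.le
        _ = (M : ℝ) ^ ((L + 1 : ℝ) * δ) := by
            rw [← Real.rpow_natCast, ← Real.rpow_mul hM0.le]
            push_cast
            rfl
    have h7 : (2 * (M : ℝ) ^ (L + 2)) ^ (1 - δ) ≤ 2 * (M : ℝ) ^ (K * (1 - δ)) := by
      rw [Real.mul_rpow (by norm_num) (by positivity)]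
      have h8 : ((M : ℝ) ^ (L + 2)) ^ (1 - δ) = (M : ℝ) ^ (K * (1 - δ)) := by
        rw [← Real.rpow_natCast, ← Real.rpow_mul hM0.le]
      rw [h8]
      refine mul_le_mul_of_nonneg_right ?_ (by positivity)
      calc (2 : ℝ) ^ (1 - δ) ≤ (2 : ℝ) ^ (1 : ℝ) :=
            Real.rpow_le_rpow_of_exponent_le (by norm_num) (by linarith)
        _ = 2 := Real.rpow_one 2
    calc (p : ℝ) * ((2 * M ^ (L + 2) / p : ℕ) : ℝ) ^ (1 - δ)
        ≤ (p : ℝ) * ((2 * (M : ℝ) ^ (L + 2)) / p) ^ (1 - δ) :=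
          mul_le_mul_of_nonneg_left h4 hpR.le
      _ = (p : ℝ) ^ δ * (2 * (M : ℝ) ^ (L + 2)) ^ (1 - δ) := h5
      _ ≤ (M : ℝ) ^ ((L + 1 : ℝ) * δ) * (2 * (M : ℝ) ^ (K * (1 - δ))) :=
          mul_le_mul h6 h7 (by positivity) (by positivity)
      _ = 2 * ((M : ℝ) ^ ((L + 1 : ℝ) * δ) * (M : ℝ) ^ (K * (1 - δ))) := by ring
      _ = 2 * E := by
          rw [← Real.rpow_add hM0, hE]
          congr 2
          rw [hK]; push_cast; ring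
  have h9 : E ≤ 2 ^ (L + 2) * (R : ℝ) ^ (1 - δ / K) := by
    have hKd : 0 ≤ K - δ := by linarith
    calc E ≤ (2 * (R : ℝ) ^ ((1 : ℝ) / K)) ^ (K - δ) := Real.rpow_le_rpow hM0.le hM hKd
      _ = (2 : ℝ) ^ (K - δ) * ((R : ℝ) ^ ((1 : ℝ) / K)) ^ (K - δ) :=
          Real.mul_rpow (by norm_num) (by positivity)
      _ ≤ 2 ^ (L + 2) * (R : ℝ) ^ (1 - δ / K) := by
          refine mul_le_mul ?_ (le_of_eq ?_) (by positivity) (by positivity)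
          · rw [← Real.rpow_natCast]
            exact Real.rpow_le_rpow_of_exponent_le (by norm_num) (by rw [← hK]; linarith)
          · rw [← Real.rpow_mul (by linarith)]
            congr 1
            field_simp
  have hd0 : (0 : ℝ) ≤ d := Nat.cast_nonneg d
  have hpm : (((p - 1 : ℕ)) : ℝ) ≤ p := by exact_mod_cast Nat.sub_le p 1
  calc ((d * (p - 1) + p * (d * e) : ℕ) : ℝ) = d * ((p - 1 : ℕ) : ℝ) + p * (d * e) := by
        push_cast; ring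
    _ ≤ d * p + p * (d * (C * ((2 * M ^ (L + 2) / p : ℕ) : ℝ) ^ (1 - δ) + 1)) := by
        gcongr
    _ = 2 * d * p + d * C * (p * ((2 * M ^ (L + 2) / p : ℕ) : ℝ) ^ (1 - δ)) := by ring
    _ ≤ 2 * d * E + d * C * (2 * E) := by
        gcongr
    _ = (2 * d + 2 * d * C) * E := by ring
    _ ≤ (2 * d + 2 * d * C) * (2 ^ (L + 2) * (R : ℝ) ^ (1 - δ / K)) :=
        mul_le_mul_of_nonneg_left h9 (by positivity)
    _ = _ := by ring

theorem step (d r : ℕ) (hr : r + 1 ≤ d) (C δ : ℝ) (hC : 0 ≤ C) (hδ0 : 0 < δ) (hδ1 : δ ≤ 1)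
    (H : Hyp d r C δ) (c₀ j : ℕ) : ∃ C' : ℝ, 0 ≤ C' ∧ ∀ R : ℕ, 1 ≤ R →
    ∀ V : Finset (Fin d → ℤ), (∀ v ∈ V, ∀ i, |v i| ≤ (R : ℤ)) →
    finrank ℚ (sp (V : Set (Fin d → ℤ))) ≤ r + 1 →
    ∀ (D : ℤ) (A : Fin d → ℤ) (c : ℤ), D ≠ 0 →
    (∀ v ∈ (V : Set (Fin d → ℤ)), D * ∑ i, v i ^ 2 = ∑ i, A i * v i + c) →
    cst A ∈ sp (V : Set (Fin d → ℤ)) → (∑ i, A i ^ 2 + 4 * D * c).natAbs ≠ 0 →
    (∑ i, A i ^ 2 + 4 * D * c).natAbs ≤ c₀ * R ^ j →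
    ∀ e : ℕ, C' * (R : ℝ) ^ (1 - δ / ((LL d + 2 : ℕ) : ℝ)) ≤ e → Inj V e := by
  classical
  set Cn : ℕ := ⌈C⌉₊ with hCn
  set eF : ℕ → ℕ := fun ρ => if ρ = 0 then 0 else ⌈C * (ρ : ℝ) ^ (1 - δ)⌉₊ with heF
  have heF1 : ∀ ρ : ℕ, 1 ≤ ρ → C * (ρ : ℝ) ^ (1 - δ) ≤ eF ρ := by
    intro ρ hρ
    have : ρ ≠ 0 := by omega
    simp only [heF, this, if_false]
    exact Nat.le_ceil _
  have heF2 : ∀ ρ : ℕ, (eF ρ : ℝ) ≤ C * (ρ : ℝ) ^ (1 - δ) + 1 := by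
    intro ρ
    by_cases h : ρ = 0
    · simp only [heF, h, if_true]
      push_cast
      positivity
    · simp only [heF, h, if_false]
      exact (Nat.ceil_lt_add_one (by positivity)).le
  have heF3 : ∀ ρ, eF ρ ≤ Cn * ρ := by
    intro ρ
    by_cases h : ρ = 0
    · simp [heF, h]
    · simp only [heF, h, if_false]
      rw [Nat.ceil_le]
      push_cast
      have h1 : (1 : ℝ) ≤ ρ := by exact_mod_cast Nat.one_le_iff_ne_zero.mpr h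
      have h2 : (ρ : ℝ) ^ (1 - δ) ≤ ρ := by
        calc (ρ : ℝ) ^ (1 - δ) ≤ (ρ : ℝ) ^ (1 : ℝ) :=
              Real.rpow_le_rpow_of_exponent_le h1 (by linarith)
          _ = ρ := Real.rpow_one _
      exact mul_le_mul (Nat.le_ceil C) h2 (by positivity) (by positivity)
  have hΔex : ∀ (ρ : ℕ) (u : Fin r → (Fin d → ℤ)), ∃ Δ : ℕ, Δ ≠ 0 ∧
      (1 ≤ ρ → Δ ≤ 2 ^ Eb d (eF ρ) ρ) ∧
      (1 ≤ ρ → Cosph (Set.range u) → ∃ q : (Fin d → Fin (eF ρ + 1)) → ℤ,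
        (∀ t ∈ Wc ρ u, t ≠ 0 → ev q t = 0) ∧ (ev q 0).natAbs = Δ) := by
    intro ρ u
    by_cases h : 1 ≤ ρ
    · obtain ⟨Δ, h1, h2, h3⟩ := exists_Delta H ρ h (eF ρ) (heF1 ρ h) u
      exact ⟨Δ, h1, fun _ => h2, fun _ => h3⟩
    · exact ⟨1, one_ne_zero, fun h' => absurd h' h, fun h' => absurd h' h⟩
  choose Δ hΔ0 hΔ1 hΔ2 using hΔex
  obtain ⟨M₀, hM₀⟩ := prime_selection d r hr Cn c₀ j
  refine ⟨(2 * d + 2 * d * C) * 2 ^ (LL d + 2) + 4 * d * (M₀ : ℝ) ^ (LL d + 2), by positivity, ?_⟩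
  intro R hR V hV hfin D A c hD0 hD hA hm0 hm e he
  have hRR : (1 : ℝ) ≤ R := by exact_mod_cast hR
  set K : ℝ := ((LL d + 2 : ℕ) : ℝ) with hK
  have hK2 : (2 : ℝ) ≤ K := by rw [hK]; push_cast; linarith [Nat.cast_nonneg (α := ℝ) (LL d)]
  set M : ℕ := ⌈(R : ℝ) ^ ((1 : ℝ) / K)⌉₊ with hM
  have hroot1 : (1 : ℝ) ≤ (R : ℝ) ^ ((1 : ℝ) / K) := Real.one_le_rpow hRR (by positivity)
  have hM1 : 1 ≤ M := Nat.one_le_ceil_iff.mpr (by linarith)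
  have hMle : (M : ℝ) ≤ 2 * (R : ℝ) ^ ((1 : ℝ) / K) := by
    have := (Nat.ceil_lt_add_one (show 0 ≤ (R : ℝ) ^ ((1 : ℝ) / K) by positivity)).le
    linarith
  have hRM : R ≤ M ^ (LL d + 2) := by
    have h1 : (R : ℝ) ^ ((1 : ℝ) / K) ≤ M := Nat.le_ceil _
    have h2 := pow_le_pow_left₀ (by positivity) h1 (LL d + 2)
    rw [← Real.rpow_natCast, ← Real.rpow_mul (by linarith)] at h2
    rw [show (1 : ℝ) / K * ((LL d + 2 : ℕ) : ℝ) = 1 by rw [← hK]; field_simp, Real.rpow_one] at h2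
    exact_mod_cast h2
  have hRpow1 : (1 : ℝ) ≤ (R : ℝ) ^ (1 - δ / K) := by
    refine Real.one_le_rpow hRR ?_
    have : δ / K ≤ 1 := by
      rw [div_le_one (by linarith)]
      linarith
    linarith
  by_cases hMM : M₀ ≤ M
  · obtain ⟨p, hp1, hp2, hp3, hp4, hp5, hp6⟩ := hM₀ M hMM R _ hRM hm0 hm eF heF3 Δ hΔ0
      (fun ρ hρ u => hΔ1 ρ u hρ)
    have : Fact p.Prime := ⟨hp1⟩
    have hp0 : 0 < p := hp1.pos
    set ρ : ℕ := 2 * M ^ (LL d + 2) / p with hρ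
    have hρ1 : 1 ≤ ρ := by
      rw [hρ, Nat.le_div_iff_mul_le hp0, one_mul]
      calc p ≤ M ^ (LL d + 1) := hp3
        _ ≤ M ^ (LL d + 2) := Nat.pow_le_pow_right hM1 (by omega)
        _ ≤ 2 * M ^ (LL d + 2) := by omega
    have hρ2 : ρ ≤ 16 * M := by
      rw [hρ]
      refine Nat.div_le_of_le_mul ?_
      calc 2 * M ^ (LL d + 2) = M ^ (LL d + 1) * (2 * M) := by ring
        _ ≤ (p * 8) * (2 * M) := Nat.mul_le_mul_right _ hp2.le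
        _ = p * (16 * M) := by ring
    have hV' : ∀ v ∈ (V : Set (Fin d → ℤ)), ∀ i, |v i| ≤ ((M ^ (LL d + 2) : ℕ) : ℤ) := by
      intro v hv i
      exact (hV v hv i).trans (by exact_mod_cast hRM)
    have hcomp := comp_inj p V (eF ρ) (by
      intro s hs
      have hsV : s ∈ (V : Set (Fin d → ℤ)) := hs
      set T : Set (Fin d → ℤ) := {y : Fin d → ℤ | (fun i => s i + p * y i) ∈ (V : Set (Fin d → ℤ))}
        with hT
      have hTbox : ∀ y ∈ T, ∀ i, |y i| ≤ (ρ : ℤ) := fun y hy i =>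
        class_box (V : Set (Fin d → ℤ)) (M ^ (LL d + 2)) p hp0 hV' s hsV y hy i
      have hTc : Cosph T := class_cosph (V : Set (Fin d → ℤ)) p hp1.ne_zero D hD0 A c hD s hsV
      have hTr : finrank ℚ (sp T) ≤ r := by
        have h1 := rank_drop (V : Set (Fin d → ℤ)) (finrank ℚ (sp (V : Set (Fin d → ℤ)))) rfl
          D A c hD hA p hp1 (by
            intro hd
            apply hp4
            exact Int.natCast_dvd.mp hd) ρ s hsV hTbox (hp6 _ hfin ρ hρ2)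
        have h2 : finrank ℚ (sp T) < finrank ℚ (sp (V : Set (Fin d → ℤ))) := h1
        omega
      obtain ⟨u, hu1, hu2, hu3⟩ := subset_Wc hTbox hTc hTr
      obtain ⟨q, hq1, hq2⟩ := hΔ2 ρ u hρ1 hu2
      refine ⟨q, ?_, ?_⟩
      · intro y hy0 hyV
        exact hq1 y (hu3 y hyV) hy0
      · intro hd
        apply hp5 ρ hρ1 hρ2 u hu1
        rw [← hq2]
        exact Int.natCast_dvd.mp hd)
    refine hcomp.mono ?_
    have hb := real_bound (LL d) d C δ hC hδ0 hδ1 R M p (eF ρ) hR hM1 hMle hp0 hp3 (heF2 ρ)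
    have hfinal : ((d * (p - 1) + p * (d * eF ρ) : ℕ) : ℝ) ≤ (e : ℝ) := by
      refine hb.trans (le_trans ?_ he)
      refine mul_le_mul_of_nonneg_right ?_ (by positivity)
      have : (0 : ℝ) ≤ 4 * d * (M₀ : ℝ) ^ (LL d + 2) := by positivity
      linarith
    exact_mod_cast hfinal
  · push Not at hMM
    refine (trivial_inj V R hR hV).mono ?_
    have h1 : R ≤ M₀ ^ (LL d + 2) := hRM.trans (Nat.pow_le_pow_left hMM.le _)
    have h1R : (R : ℝ) ≤ (M₀ : ℝ) ^ (LL d + 2) := by exact_mod_cast h1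
    have h2 : ((4 * d * R : ℕ) : ℝ) ≤ (e : ℝ) := by
      refine le_trans ?_ he
      push_cast
      have h3 : (0 : ℝ) ≤ (2 * d + 2 * d * C) * 2 ^ (LL d + 2) := by positivity
      have h4 : (4 : ℝ) * d * R ≤ 4 * d * (M₀ : ℝ) ^ (LL d + 2) :=
        mul_le_mul_of_nonneg_left h1R (by positivity)
      calc (4 : ℝ) * d * R ≤ 4 * d * (M₀ : ℝ) ^ (LL d + 2) := h4
        _ ≤ (2 * d + 2 * d * C) * 2 ^ (LL d + 2) + 4 * d * (M₀ : ℝ) ^ (LL d + 2) := by linarith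
        _ ≤ ((2 * d + 2 * d * C) * 2 ^ (LL d + 2) + 4 * d * (M₀ : ℝ) ^ (LL d + 2)) *
            (R : ℝ) ^ (1 - δ / K) := le_mul_of_one_le_right (by positivity) hRpow1
    exact_mod_cast h2

end Pool.Agent.TH998.Tor
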