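import Mathlib
import Pool.Agent.TH998.Tor.Step
import Pool.Agent.TH998.Tor.Analytic

set_option autoImplicit false

namespace Pool.Agent.TH998.Tor

open Module

lemma centerBound_le (d k ρ : ℕ) (hk : k ≤ d) (hd : 1 ≤ d) (hρ : 1 ≤ ρ) :
    centerBound d k ρ ≤ d * (d * (d * (d.factorial * d ^ d) * d)) ^ 2 * ρ ^ (4 * d + 6) := by
  unfold centerBound
  have h1 : (d * ρ ^ 2) ^ k ≤ d ^ d * ρ ^ (2 * d) := by
    calc (d * ρ ^ 2) ^ k ≤ (d * ρ ^ 2) ^ d :=
          Nat.pow_le_pow_right (Nat.mul_pos hd (by positivity)) hk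
      _ = d ^ d * ρ ^ (2 * d) := by rw [mul_pow, ← pow_mul]
  calc d * (k * (k * (k.factorial * (d * ρ ^ 2) ^ k) * (d * ρ ^ 2)) * ρ) ^ 2
      ≤ d * (d * (d * (d.factorial * (d ^ d * ρ ^ (2 * d))) * (d * ρ ^ 2)) * ρ) ^ 2 := by
        have h2 := Nat.factorial_le hk
        gcongr
    _ = _ := by ring

theorem induct (d : ℕ) : ∀ r, r + 1 ≤ d → ∃ C : ℝ, 0 ≤ C ∧
    Hyp d (r + 1) C ((1 / ((LL d + 2 : ℕ) : ℝ)) ^ r) := by
  intro r
  have hK : (2 : ℝ) ≤ ((LL d + 2 : ℕ) : ℝ) := by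
    push_cast; linarith [Nat.cast_nonneg (α := ℝ) (LL d)]
  have hK1 : 1 / ((LL d + 2 : ℕ) : ℝ) ≤ 1 := by
    rw [div_le_one (by linarith)]; linarith
  have hK0 : 0 < 1 / ((LL d + 2 : ℕ) : ℝ) := by positivity
  induction r with
  | zero =>
    intro _
    refine ⟨1, by norm_num, ?_⟩
    rw [pow_zero]
    exact Hyp_one d
  | succ r ih =>
    intro hr
    obtain ⟨C, hC, H⟩ := ih (by omega)
    obtain ⟨C', hC', hstep⟩ := step d (r + 1) hr C ((1 / ((LL d + 2 : ℕ) : ℝ)) ^ r) hC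
      (by positivity) (pow_le_one₀ hK0.le hK1) H
      (d * (d * (d * (d.factorial * d ^ d) * d)) ^ 2) (4 * d + 6)
    refine ⟨C', hC', ?_⟩
    intro ρ hρ V hV hcos hfin e he
    rcases Nat.eq_zero_or_pos (finrank ℚ (sp (V : Set (Fin d → ℤ)))) with h0 | hpos
    · exact Hyp_zero d ρ hρ V hV hcos (by omega) e (by simp)
    · obtain ⟨a, ha⟩ := hcos
      obtain ⟨D, A, hD0, hD, hA, hm0, hmb⟩ := center (V : Set (Fin d → ℤ)) _ rfl hpos ρ hρ
        (fun v hv i => hV v hv i) a ha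
      have hkd : finrank ℚ (sp (V : Set (Fin d → ℤ))) ≤ d :=
        (Submodule.finrank_le _).trans (by simp)
      refine hstep ρ hρ V hV hfin D A 0 hD0 ?_ hA ?_ ?_ e ?_
      · intro v hv
        rw [hD v hv, add_zero]
      · rw [mul_zero, add_zero]
        exact Int.natAbs_ne_zero.mpr hm0
      · rw [mul_zero, add_zero]
        have h1 : (((∑ i, A i ^ 2).natAbs : ℕ) : ℤ) ≤
            ((centerBound d (finrank ℚ (sp (V : Set (Fin d → ℤ)))) ρ : ℕ) : ℤ) := by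
          rw [Int.natCast_natAbs, abs_of_nonneg (Finset.sum_nonneg fun i _ => sq_nonneg _)]
          exact hmb
        have h2 : (∑ i, A i ^ 2).natAbs ≤
            centerBound d (finrank ℚ (sp (V : Set (Fin d → ℤ)))) ρ := by exact_mod_cast h1
        exact h2.trans (centerBound_le d _ ρ hkd (by omega) hρ)
      · rw [pow_succ] at he
        rw [show (1 / ((LL d + 2 : ℕ) : ℝ)) ^ r / ((LL d + 2 : ℕ) : ℝ) =
          (1 / ((LL d + 2 : ℕ) : ℝ)) ^ r * (1 / ((LL d + 2 : ℕ) : ℝ)) by ring]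
        exact he

/-- The interpolation degree of the lattice points on a sphere centered at the origin. -/
theorem sphere_inj (d : ℕ) (hd : 2 ≤ d) : ∃ C : ℝ, 0 ≤ C ∧ ∀ n : ℕ, 1 ≤ n →
    ∀ S : Finset (Fin d → ℤ), (∀ x ∈ S, ∑ i, x i ^ 2 = (n : ℤ)) →
    ∀ e : ℕ, C * (n : ℝ) ^ ((1 - (1 / ((d : ℝ) ^ 2 + 5)) ^ (d - 1)) / 2) ≤ e → Inj S e := by
  obtain ⟨r, rfl⟩ : ∃ r, d = r + 2 := ⟨d - 2, by omega⟩
  obtain ⟨C, hC, H⟩ := induct (r + 2) r (by omega)
  have hKK : (((r + 2 : ℕ) : ℝ)) ^ 2 + 5 = ((LL (r + 2) + 2 : ℕ) : ℝ) := by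
    unfold LL; push_cast; ring
  rw [hKK, show r + 2 - 1 = r + 1 by omega]
  set K : ℝ := ((LL (r + 2) + 2 : ℕ) : ℝ) with hK
  have hK2 : (2 : ℝ) ≤ K := by
    rw [hK]; push_cast; linarith [Nat.cast_nonneg (α := ℝ) (LL (r + 2))]
  have hK1 : 1 / K ≤ 1 := by
    rw [div_le_one (by linarith)]; linarith
  have hK0 : 0 < 1 / K := by positivity
  obtain ⟨C', hC', hstep⟩ := step (r + 2) (r + 1) le_rfl C ((1 / K) ^ r) hC
    (by positivity) (pow_le_one₀ hK0.le hK1) H 4 2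
  refine ⟨C' * 2, by positivity, ?_⟩
  intro n hn S hS e he
  set R : ℕ := ⌈Real.sqrt n⌉₊ with hR
  have hnR : (1 : ℝ) ≤ n := by exact_mod_cast hn
  have hsq1 : 1 ≤ Real.sqrt n := Real.one_le_sqrt.mpr hnR
  have hR1 : 1 ≤ R := Nat.one_le_ceil_iff.mpr (by linarith)
  have hRle : (R : ℝ) ≤ 2 * Real.sqrt n := by
    have := (Nat.ceil_lt_add_one (show 0 ≤ Real.sqrt n by positivity)).le
    linarith
  have hRge : n ≤ R ^ 2 := by
    have h1 : Real.sqrt n ≤ R := Nat.le_ceil _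
    have h2 := pow_le_pow_left₀ (by positivity) h1 2
    rw [Real.sq_sqrt (by linarith)] at h2
    exact_mod_cast h2
  refine hstep R hR1 S ?_ ?_ 1 0 n one_ne_zero ?_ ?_ ?_ ?_ e ?_
  · intro v hv i
    have h1 : v i ^ 2 ≤ ∑ j, v j ^ 2 :=
      Finset.single_le_sum (f := fun j => v j ^ 2) (fun j _ => sq_nonneg _) (Finset.mem_univ i)
    rw [hS v hv] at h1
    have h2 : (n : ℤ) ≤ (R : ℤ) ^ 2 := by exact_mod_cast hRge
    exact abs_le_of_sq_le_sq (h1.trans h2) (by positivity)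
  · exact (Submodule.finrank_le _).trans (by simp)
  · intro v hv
    rw [hS v hv]
    simp
  · have : cst (0 : Fin (r + 2) → ℤ) = 0 := by
      funext i
      simp [cst]
    rw [this]
    exact Submodule.zero_mem _
  · simp only [Pi.zero_apply]
    have : ((∑ _i : Fin (r + 2), (0 : ℤ) ^ 2 + 4 * 1 * (n : ℤ))).natAbs = 4 * n := by
      simp
      omega
    rw [this]
    omega
  · simp only [Pi.zero_apply]
    have : ((∑ _i : Fin (r + 2), (0 : ℤ) ^ 2 + 4 * 1 * (n : ℤ))).natAbs = 4 * n := by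
      simp
      omega
    rw [this]
    omega
  · refine le_trans ?_ he
    have hdelta : (1 / K) ^ r / K = (1 / K) ^ (r + 1) := by
      rw [pow_succ]; ring
    rw [hdelta]
    have hexp : 0 ≤ 1 - (1 / K) ^ (r + 1) := by
      have := pow_le_one₀ (n := r + 1) hK0.le hK1
      linarith
    have h1 : (R : ℝ) ^ (1 - (1 / K) ^ (r + 1)) ≤ 2 * (n : ℝ) ^ ((1 - (1 / K) ^ (r + 1)) / 2) := by
      calc (R : ℝ) ^ (1 - (1 / K) ^ (r + 1)) ≤ (2 * Real.sqrt n) ^ (1 - (1 / K) ^ (r + 1)) :=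
            Real.rpow_le_rpow (by positivity) hRle hexp
        _ = 2 ^ (1 - (1 / K) ^ (r + 1)) * (Real.sqrt n) ^ (1 - (1 / K) ^ (r + 1)) :=
            Real.mul_rpow (by norm_num) (by positivity)
        _ ≤ 2 * (n : ℝ) ^ ((1 - (1 / K) ^ (r + 1)) / 2) := by
            refine mul_le_mul ?_ (le_of_eq ?_) (by positivity) (by norm_num)
            · calc (2 : ℝ) ^ (1 - (1 / K) ^ (r + 1)) ≤ (2 : ℝ) ^ (1 : ℝ) :=
                    Real.rpow_le_rpow_of_exponent_le (by norm_num) (by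
                      have : 0 < (1 / K) ^ (r + 1) := by positivity
                      linarith)
                _ = 2 := Real.rpow_one 2
            · rw [Real.sqrt_eq_rpow, ← Real.rpow_mul (by linarith)]
              congr 1
              ring
    calc C' * (R : ℝ) ^ (1 - (1 / K) ^ (r + 1))
        ≤ C' * (2 * (n : ℝ) ^ ((1 - (1 / K) ^ (r + 1)) / 2)) := mul_le_mul_of_nonneg_left h1 hC'
      _ = C' * 2 * (n : ℝ) ^ ((1 - (1 / K) ^ (r + 1)) / 2) := by ring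

end Pool.Agent.TH998.Tor
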